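import Pool.Agent.Work.MP_bce22b_lc.Omega

/-!
A choiceless fixed point theorem (Bourbaki-Witt) for decreasing operators on subsets of a set.
-/

namespace Pool.Agent.Work.MP_bce22b_lc

universe u

variable {M : Type u} [SetStr M] [ZFM M]

section

variable (Q : M) (Φ : M → M) [hd : DF1 Φ] (hΦ : ∀ a, a ⊆ Q → Φ a ⊆ a)

def Tower (Q : M) (Φ : M → M) (U : M) : Prop :=
  Q ∈ U ∧ (∀ a, a ∈ U → Φ a ∈ U) ∧ ∀ S, S ⊆ U → (∃ a, a ∈ S) → sI S ∈ U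

omit [ZFM M] in
theorem dp_Tower : DP1 (fun U : M => Tower Q Φ U) := by
  have hR := fun {Γ : Type u} [Ctx M Γ] (F : Γ → M) [DF F] => DF1.app Φ (F := F)
  unfold Tower
  infer_instance

noncomputable def tow (Q : M) (Φ : M → M) : M := sep (pw Q) (fun c => ∀ U, Tower Q Φ U → c ∈ U)

theorem mem_tow {c : M} : c ∈ tow Q Φ ↔ c ⊆ Q ∧ ∀ U, Tower Q Φ U → c ∈ U := by
  have h1 := dp_Tower Q Φ
  have h2 := fun {Γ : Type u} [Ctx M Γ] (F : Γ → M) [DF F] =>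
    DP1.app (fun U : M => Tower Q Φ U) (F := F)
  unfold tow
  rw [mem_sep, mem_pw]

theorem sI_sub {S a : M} (ha : a ∈ S) : sI S ⊆ a := fun _ hx => (mem_sI ⟨a, ha⟩).1 hx a ha

include hΦ

theorem tower_tow : Tower Q Φ (tow Q Φ) := by
  refine ⟨(mem_tow Q Φ).2 ⟨sub_refl _, fun U hU => hU.1⟩, fun a ha => ?_, fun S hS hne => ?_⟩
  · rw [mem_tow] at ha ⊢
    exact ⟨sub_trans (hΦ a ha.1) ha.1, fun U hU => hU.2.1 a (ha.2 U hU)⟩
  · rw [mem_tow]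
    obtain ⟨a, ha⟩ := hne
    refine ⟨sub_trans (sI_sub ha) ((mem_tow Q Φ).1 (hS a ha)).1, fun U hU => ?_⟩
    exact hU.2.2 S (fun x hx => ((mem_tow Q Φ).1 (hS x hx)).2 U hU) ⟨a, ha⟩

theorem tow_ind (P : M → Prop) [DP1 P] (h0 : P Q) (hs : ∀ a, a ∈ tow Q Φ → P a → P (Φ a))
    (hI : ∀ S, S ⊆ tow Q Φ → (∃ a, a ∈ S) → (∀ a, a ∈ S → P a) → P (sI S))
    {a : M} (ha : a ∈ tow Q Φ) : P a := by
  have hT := tower_tow Q Φ hΦ
  have := ((mem_tow Q Φ).1 ha).2 (sep (tow Q Φ) P) ⟨?_, ?_, ?_⟩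
  · exact (mem_sep.1 this).2
  · exact mem_sep.2 ⟨hT.1, h0⟩
  · intro a ha
    rw [mem_sep] at ha ⊢
    exact ⟨hT.2.1 a ha.1, hs a ha.1 ha.2⟩
  · intro S hS hne
    rw [mem_sep]
    have h1 : S ⊆ tow Q Φ := fun x hx => (mem_sep.1 (hS x hx)).1
    exact ⟨hT.2.2 S h1 hne, hI S h1 hne fun a ha => (mem_sep.1 (hS a ha)).2⟩

omit hΦ in
/-- the key notion of the Bourbaki-Witt argument -/
def Extr (Q : M) (Φ : M → M) (c : M) : Prop := ∀ a, a ∈ tow Q Φ → c ⊆ a → c ≠ a → c ⊆ Φ a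

theorem tow_claim1 {c : M} (hcT : c ∈ tow Q Φ) (hc : Extr Q Φ c) {x : M} (hx : x ∈ tow Q Φ) :
    c ⊆ x ∨ x ⊆ Φ c := by
  have hsub : ∀ a, a ∈ tow Q Φ → Φ a ⊆ a := fun a ha => hΦ a ((mem_tow Q Φ).1 ha).1
  refine tow_ind Q Φ hΦ (fun x => c ⊆ x ∨ x ⊆ Φ c) (Or.inl ((mem_tow Q Φ).1 hcT).1) ?_ ?_ hx
  · rintro a ha (h | h)
    · by_cases hca : c = a
      · subst hca
        exact Or.inr (sub_refl _)
      · exact Or.inl (hc a ha h hca)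
    · exact Or.inr (sub_trans (hsub a ha) h)
  · rintro S hS ⟨a₀, ha₀⟩ h
    by_cases hall : ∀ a, a ∈ S → c ⊆ a
    · left
      intro z hz
      exact (mem_sI ⟨a₀, ha₀⟩).2 fun y hy => hall y hy z hz
    · push Not at hall
      obtain ⟨a, ha, hca⟩ := hall
      exact Or.inr (sub_trans (sI_sub ha) ((h a ha).resolve_left hca))

theorem tow_claim2 {c : M} (hcT : c ∈ tow Q Φ) : Extr Q Φ c := by
  have hsub : ∀ a, a ∈ tow Q Φ → Φ a ⊆ a := fun a ha => hΦ a ((mem_tow Q Φ).1 ha).1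
  have hR := fun {Γ : Type u} [Ctx M Γ] (F : Γ → M) [DF F] => DF1.app Φ (F := F)
  have hd' : DP1 (fun c : M => Extr Q Φ c) := by
    unfold Extr
    infer_instance
  refine tow_ind Q Φ hΦ (fun c => Extr Q Φ c) ?_ ?_ ?_ hcT
  · intro a ha h hne
    exact absurd (sub_antisymm h ((mem_tow Q Φ).1 ha).1) hne
  · intro c hc ih a ha h hne
    rcases tow_claim1 Q Φ hΦ hc ih ha with h1 | h1
    · by_cases hca : c = a
      · subst hca
        exact sub_refl _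
      · exact sub_trans (hsub c hc) (ih a ha h1 hca)
    · exact absurd (sub_antisymm h h1) hne
  · rintro S hS ⟨a₀, ha₀⟩ ih a ha h hne
    by_cases hall : ∀ x, x ∈ S → a ⊆ x
    · exfalso
      apply hne
      exact sub_antisymm h fun z hz => (mem_sI ⟨a₀, ha₀⟩).2 fun y hy => hall y hy z hz
    · push Not at hall
      obtain ⟨x, hx, hax⟩ := hall
      have h1 : x ⊆ a := by
        rcases tow_claim1 Q Φ hΦ (hS x hx) (ih x hx) ha with h1 | h1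
        · exact h1
        · exact absurd (sub_trans h1 (hsub x (hS x hx))) hax
      have hxa : x ≠ a := by
        rintro rfl
        exact hax (sub_refl _)
      exact sub_trans (sI_sub hx) (ih x hx a ha h1 hxa)

theorem tow_chain {a b : M} (ha : a ∈ tow Q Φ) (hb : b ∈ tow Q Φ) : a ⊆ b ∨ b ⊆ a := by
  rcases tow_claim1 Q Φ hΦ ha (tow_claim2 Q Φ hΦ ha) hb with h | h
  · exact Or.inl h
  · exact Or.inr (sub_trans h (hΦ a ((mem_tow Q Φ).1 ha).1))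

/-- A choiceless Bourbaki-Witt theorem. -/
theorem bourbaki_witt (Inv : M → Prop) [hi : DP1 Inv] (h0 : Inv Q)
    (hs : ∀ a, a ⊆ Q → Inv a → Inv (Φ a))
    (hI : ∀ S, (∃ a, a ∈ S) → (∀ a, a ∈ S → a ⊆ Q ∧ Inv a) →
      (∀ a b, a ∈ S → b ∈ S → a ⊆ b ∨ b ⊆ a) → Inv (sI S)) :
    ∃ m, m ⊆ Q ∧ Inv m ∧ Φ m = m := by
  have hT := tower_tow Q Φ hΦ
  have hsubQ : ∀ a, a ∈ tow Q Φ → a ⊆ Q := fun a ha => ((mem_tow Q Φ).1 ha).1
  have key : ∀ a, a ∈ tow Q Φ → Inv a := fun a ha =>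
    tow_ind Q Φ hΦ Inv h0 (fun a ha h => hs a (hsubQ a ha) h)
      (fun S hS hne h => hI S hne (fun a ha => ⟨hsubQ a (hS a ha), h a ha⟩)
        (fun a b ha hb => tow_chain Q Φ hΦ (hS a ha) (hS b hb))) ha
  have hm : sI (tow Q Φ) ∈ tow Q Φ := hT.2.2 _ (sub_refl _) ⟨Q, hT.1⟩
  refine ⟨sI (tow Q Φ), hsubQ _ hm, key _ hm, ?_⟩
  exact sub_antisymm (hΦ _ (hsubQ _ hm)) (sI_sub (hT.2.1 _ hm))

end

end Pool.Agent.Work.MP_bce22b_lc
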