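import Pool.Agent.Work.MP_bce22b_lc.Defs

/-!
Models of set theory and first-order definability: basic layer.
-/

namespace Pool.Agent.Work.MP_bce22b_lc

universe u

def liftR (ρ : ℕ → ℕ) : ℕ → ℕ
  | 0 => 0
  | n + 1 => ρ n + 1

def Fml.rn : (ℕ → ℕ) → Fml → Fml
  | ρ, .mem i j => .mem (ρ i) (ρ j)
  | ρ, .eq i j => .eq (ρ i) (ρ j)
  | ρ, .neg φ => .neg (φ.rn ρ)
  | ρ, .and φ ψ => .and (φ.rn ρ) (ψ.rn ρ)
  | ρ, .all φ => .all (φ.rn (liftR ρ))

theorem scons_comp_liftR {M : Type u} (x : M) (v : ℕ → M) (ρ : ℕ → ℕ) :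
    scons x v ∘ liftR ρ = scons x (v ∘ ρ) := by
  funext n
  cases n <;> rfl

theorem sat_rn {M : Type u} (E : M → M → Prop) (φ : Fml) :
    ∀ (ρ : ℕ → ℕ) (v : ℕ → M), Sat E (φ.rn ρ) v ↔ Sat E φ (v ∘ ρ) := by
  induction φ with
  | mem i j => intro ρ v; exact Iff.rfl
  | eq i j => intro ρ v; exact Iff.rfl
  | neg φ ih => intro ρ v; exact not_congr (ih ρ v)
  | and φ ψ ih1 ih2 => intro ρ v; exact and_congr (ih1 ρ v) (ih2 ρ v)
  | all φ ih =>
    intro ρ v
    refine forall_congr' fun x => ?_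
    rw [ih, scons_comp_liftR]

/-- A structure for the language of set theory. -/
class SetStr (M : Type u) where
  /-- the membership relation; `E x a` is `x ∈ a` -/
  E : M → M → Prop
  /-- a junk value -/
  dflt : M

instance instMem (M : Type u) [SetStr M] : Membership M M := ⟨fun a x => SetStr.E x a⟩

/-- Contexts: finite tuples of elements of `M`. -/
class Ctx (M : Type u) (Γ : Type u) where
  len : ℕ
  val : Γ → (ℕ → M) → ℕ → M
  val_add : ∀ γ p i, val γ p (len + i) = p i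
  val_lt : ∀ γ p q i, i < len → val γ p i = val γ q i

instance ctxUnit (M : Type u) : Ctx M PUnit.{u+1} where
  len := 0
  val _ p := p
  val_add := by intro γ p i; simp
  val_lt := by intro γ p q i hi; exact absurd hi (Nat.not_lt_zero _)

instance ctxProd (M : Type u) (Γ : Type u) [Ctx M Γ] : Ctx M (Γ × M) where
  len := Ctx.len M Γ + 1
  val w p := scons w.2 (Ctx.val w.1 p)
  val_add := by
    intro γ p i
    have : Ctx.len M Γ + 1 + i = (Ctx.len M Γ + i) + 1 := by omega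
    rw [this]
    exact Ctx.val_add γ.1 p i
  val_lt := by
    intro γ p q i hi
    cases i with
    | zero => rfl
    | succ i => exact Ctx.val_lt γ.1 p q i (by omega)

variable {M : Type u} [SetStr M] {Γ : Type u} [Ctx M Γ]

/-- `P` is first-order definable with parameters. -/
class DP (M : Type u) [SetStr M] {Γ : Type u} [Ctx M Γ] (P : Γ → Prop) : Prop where
  out : ∃ (φ : Fml) (p : ℕ → M), ∀ γ, P γ ↔ Sat (SetStr.E (M := M)) φ (Ctx.val γ p)

/-- `F` is first-order definable with parameters. -/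
class DF {M : Type u} [SetStr M] {Γ : Type u} [Ctx M Γ] (F : Γ → M) : Prop where
  out : DP M (fun w : Γ × M => w.2 = F w.1)


theorem DP.congr {P Q : Γ → Prop} (hP : DP M P) (h : ∀ γ, Q γ ↔ P γ) : DP M Q := by
  obtain ⟨φ, p, hφ⟩ := hP.out
  exact ⟨φ, p, fun γ => (h γ).trans (hφ γ)⟩


theorem DP.reidx {Δ : Type u} [Ctx M Δ] {P : Γ → Prop} (hP : DP M P) (σ : Δ → Γ) (ρ : ℕ → ℕ)
    (h : ∀ δ (p : ℕ → M), Ctx.val (σ δ) p = Ctx.val δ p ∘ ρ) : DP M (fun δ => P (σ δ)) := by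
  obtain ⟨φ, p, hφ⟩ := hP.out
  refine ⟨φ.rn ρ, p, fun δ => ?_⟩
  rw [sat_rn, ← h]
  exact hφ _


theorem DF.congr {F G : Γ → M} (hF : DF F) (h : ∀ γ, G γ = F γ) : DF G := by
  have : G = F := funext h
  rwa [this]

def mergeP (p q : ℕ → M) (n : ℕ) : M := if n % 2 = 0 then p (n / 2) else q (n / 2)

section logic

instance DP.neg {P : Γ → Prop} [hP : DP M P] : DP M (fun γ => ¬ P γ) := by
  obtain ⟨φ, p, hφ⟩ := hP.out
  exact ⟨.neg φ, p, fun γ => not_congr (hφ γ)⟩

instance DP.and {P Q : Γ → Prop} [hP : DP M P] [hQ : DP M Q] : DP M (fun γ => P γ ∧ Q γ) := by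
  obtain ⟨φ, p, hφ⟩ := hP.out
  obtain ⟨ψ, q, hψ⟩ := hQ.out
  set n := Ctx.len M Γ with hn
  let ρ₁ : ℕ → ℕ := fun i => if i < n then i else n + 2 * (i - n)
  let ρ₂ : ℕ → ℕ := fun i => if i < n then i else n + (2 * (i - n) + 1)
  refine ⟨.and (φ.rn ρ₁) (ψ.rn ρ₂), mergeP p q, fun γ => ?_⟩
  have e₁ : Ctx.val γ (mergeP p q) ∘ ρ₁ = Ctx.val γ p := by
    funext i
    by_cases hi : i < n
    · simp only [Function.comp, ρ₁, if_pos hi]
      exact Ctx.val_lt γ _ _ i hi
    · simp only [Function.comp, ρ₁, if_neg hi]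
      rw [Ctx.val_add]
      obtain ⟨j, rfl⟩ : ∃ j, i = n + j := ⟨i - n, by omega⟩
      rw [Ctx.val_add]
      simp [mergeP]
  have e₂ : Ctx.val γ (mergeP p q) ∘ ρ₂ = Ctx.val γ q := by
    funext i
    by_cases hi : i < n
    · simp only [Function.comp, ρ₂, if_pos hi]
      exact Ctx.val_lt γ _ _ i hi
    · simp only [Function.comp, ρ₂, if_neg hi]
      rw [Ctx.val_add]
      obtain ⟨j, rfl⟩ : ∃ j, i = n + j := ⟨i - n, by omega⟩
      rw [Ctx.val_add]
      have h1 : (2 * (n + j - n) + 1) % 2 = 1 := by omega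
      have h2 : (2 * (n + j - n) + 1) / 2 = j := by omega
      simp only [mergeP, h1, h2]
      simp
  show P γ ∧ Q γ ↔ Sat _ (φ.rn ρ₁) _ ∧ Sat _ (ψ.rn ρ₂) _
  rw [sat_rn, sat_rn, e₁, e₂]
  exact and_congr (hφ γ) (hψ γ)

instance DP.all {Q : Γ → M → Prop} [h : DP M (fun w : Γ × M => Q w.1 w.2)] :
    DP M (fun γ => ∀ x : M, Q γ x) := by
  obtain ⟨φ, p, hφ⟩ := h.out
  exact ⟨.all φ, p, fun γ => forall_congr' fun x => hφ (γ, x)⟩

instance DP.imp {P Q : Γ → Prop} [hP : DP M P] [hQ : DP M Q] : DP M (fun γ => P γ → Q γ) :=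
  DP.congr (P := fun γ => ¬ (P γ ∧ ¬ Q γ)) inferInstance fun γ => by tauto

instance DP.or {P Q : Γ → Prop} [hP : DP M P] [hQ : DP M Q] : DP M (fun γ => P γ ∨ Q γ) :=
  DP.congr (P := fun γ => ¬ (¬ P γ ∧ ¬ Q γ)) inferInstance fun γ => by tauto

instance DP.iff {P Q : Γ → Prop} [hP : DP M P] [hQ : DP M Q] : DP M (fun γ => (P γ ↔ Q γ)) :=
  DP.congr (P := fun γ => (P γ → Q γ) ∧ (Q γ → P γ)) inferInstance fun γ => by tauto

instance DP.ex {Q : Γ → M → Prop} [h : DP M (fun w : Γ × M => Q w.1 w.2)] :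
    DP M (fun γ => ∃ x : M, Q γ x) :=
  DP.congr (P := fun γ => ¬ ∀ x, ¬ Q γ x) (by
    have : DP M (fun w : Γ × M => ¬ Q w.1 w.2) := DP.neg
    have h2 : DP M (fun γ => ∀ x : M, ¬ Q γ x) := DP.all (Q := fun γ x => ¬ Q γ x)
    exact DP.neg) fun γ => by simp

end logic

/-- constants of `Prop` -/
instance DP.const {a : Prop} : DP M (fun _ : Γ => a) := by
  by_cases h : a
  · exact ⟨.neg (.and (.eq 0 0) (.neg (.eq 0 0))), fun _ => SetStr.dflt,
      fun γ => by simp [Sat, h]⟩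
  · exact ⟨(.and (.eq 0 0) (.neg (.eq 0 0))), fun _ => SetStr.dflt, fun γ => by simp [Sat, h]⟩

section vars

theorem DP.weaken {P : Γ → Prop} (hP : DP M P) : DP M (fun w : Γ × M => P w.1) :=
  hP.reidx Prod.fst Nat.succ (by intro δ p; rfl)

theorem DP.weaken1 {P : Γ × M → Prop} (hP : DP M P) :
    DP M (fun w : (Γ × M) × M => P (w.1.1, w.2)) :=
  hP.reidx (fun w : (Γ × M) × M => (w.1.1, w.2)) (fun n => Nat.casesOn n 0 (fun k => k + 2)) (by
    intro δ p
    funext n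
    cases n <;> rfl)

theorem DP.subst {P : Γ × M → Prop} (hP : DP M P) {F : Γ → M} (hF : DF F) :
    DP M (fun γ => P (γ, F γ)) :=
  DP.congr (P := fun γ => ∃ x, x = F γ ∧ P (γ, x)) (by
    have h1 : DP M (fun w : Γ × M => w.2 = F w.1) := hF.out
    have h2 : DP M (fun w : Γ × M => w.2 = F w.1 ∧ P w) := DP.and
    exact DP.ex (Q := fun γ x => x = F γ ∧ P (γ, x))) fun γ => by simp

theorem DF.weaken {F : Γ → M} (hF : DF F) : DF (fun w : Γ × M => F w.1) :=
  ⟨DP.weaken1 (P := fun w => w.2 = F w.1) hF.out⟩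

instance DF.var0 : DF (fun w : Γ × M => w.2) :=
  ⟨.eq 0 1, fun _ => SetStr.dflt, fun _ => Iff.rfl⟩

instance DF.var1 : DF (fun w : (Γ × M) × M => w.1.2) := DF.weaken DF.var0

instance DF.var2 : DF (fun w : ((Γ × M) × M) × M => w.1.1.2) := DF.weaken DF.var1

instance DF.var3 : DF (fun w : (((Γ × M) × M) × M) × M => w.1.1.1.2) := DF.weaken DF.var2

instance DF.var4 : DF (fun w : ((((Γ × M) × M) × M) × M) × M => w.1.1.1.1.2) := DF.weaken DF.var3

instance DF.var5 : DF (fun w : (((((Γ × M) × M) × M) × M) × M) × M => w.1.1.1.1.1.2) := DF.weaken DF.var4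

instance DF.var6 : DF (fun w : ((((((Γ × M) × M) × M) × M) × M) × M) × M => w.1.1.1.1.1.1.2) := DF.weaken DF.var5

instance DF.var7 : DF (fun w : (((((((Γ × M) × M) × M) × M) × M) × M) × M) × M => w.1.1.1.1.1.1.1.2) := DF.weaken DF.var6

instance DF.var8 : DF (fun w : ((((((((Γ × M) × M) × M) × M) × M) × M) × M) × M) × M => w.1.1.1.1.1.1.1.1.2) := DF.weaken DF.var7

instance DF.var9 : DF (fun w : (((((((((Γ × M) × M) × M) × M) × M) × M) × M) × M) × M) × M => w.1.1.1.1.1.1.1.1.1.2) := DF.weaken DF.var8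

instance DF.var10 : DF (fun w : ((((((((((Γ × M) × M) × M) × M) × M) × M) × M) × M) × M) × M) × M => w.1.1.1.1.1.1.1.1.1.1.2) := DF.weaken DF.var9

instance DF.var11 : DF (fun w : (((((((((((Γ × M) × M) × M) × M) × M) × M) × M) × M) × M) × M) × M) × M => w.1.1.1.1.1.1.1.1.1.1.1.2) := DF.weaken DF.var10

instance DF.var12 : DF (fun w : ((((((((((((Γ × M) × M) × M) × M) × M) × M) × M) × M) × M) × M) × M) × M) × M => w.1.1.1.1.1.1.1.1.1.1.1.1.2) := DF.weaken DF.var11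

instance DF.const {a : M} : DF (fun _ : Γ => a) := by
  refine ⟨.eq 0 (Ctx.len M Γ + 1), fun _ => a, fun w => ?_⟩
  show w.2 = a ↔ scons w.2 (Ctx.val w.1 fun _ => a) 0 =
    scons w.2 (Ctx.val w.1 fun _ => a) (Ctx.len M Γ + 1)
  have : scons w.2 (Ctx.val w.1 fun _ => a) (Ctx.len M Γ + 1) = a :=
    Ctx.val_add w.1 _ 0
  rw [this]
  rfl

instance DF.wk1 {F : Γ → M} [hF : DF F] : DF (fun w : Γ × M => F w.1) := DF.weaken hF

instance DF.wk2 {F : Γ → M} [hF : DF F] : DF (fun w : (Γ × M) × M => F w.1.1) := DF.weaken DF.wk1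

instance DF.wk3 {F : Γ → M} [hF : DF F] : DF (fun w : ((Γ × M) × M) × M => F w.1.1.1) := DF.weaken DF.wk2

instance DF.wk4 {F : Γ → M} [hF : DF F] : DF (fun w : (((Γ × M) × M) × M) × M => F w.1.1.1.1) := DF.weaken DF.wk3

instance DF.wk5 {F : Γ → M} [hF : DF F] : DF (fun w : ((((Γ × M) × M) × M) × M) × M => F w.1.1.1.1.1) := DF.weaken DF.wk4

instance DF.wk6 {F : Γ → M} [hF : DF F] : DF (fun w : (((((Γ × M) × M) × M) × M) × M) × M => F w.1.1.1.1.1.1) := DF.weaken DF.wk5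

instance DF.wk7 {F : Γ → M} [hF : DF F] : DF (fun w : ((((((Γ × M) × M) × M) × M) × M) × M) × M => F w.1.1.1.1.1.1.1) := DF.weaken DF.wk6

instance DF.wk8 {F : Γ → M} [hF : DF F] : DF (fun w : (((((((Γ × M) × M) × M) × M) × M) × M) × M) × M => F w.1.1.1.1.1.1.1.1) := DF.weaken DF.wk7

theorem DP.memBase : DP M (fun w : (Γ × M) × M => w.1.2 ∈ w.2) :=
  ⟨.mem 1 0, fun _ => SetStr.dflt, fun _ => Iff.rfl⟩

theorem DP.eqBase : DP M (fun w : (Γ × M) × M => w.1.2 = w.2) :=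
  ⟨.eq 1 0, fun _ => SetStr.dflt, fun _ => Iff.rfl⟩

instance DP.mem {F G : Γ → M} [hF : DF F] [hG : DF G] : DP M (fun γ => F γ ∈ G γ) :=
  DP.subst (P := fun w : Γ × M => w.2 ∈ G w.1)
    (DP.subst (P := fun w : (Γ × M) × M => w.1.2 ∈ w.2) DP.memBase (F := fun w => G w.1)
      inferInstance) hF

instance DP.eq {F G : Γ → M} [hF : DF F] [hG : DF G] : DP M (fun γ => F γ = G γ) :=
  DP.subst (P := fun w : Γ × M => w.2 = G w.1)
    (DP.subst (P := fun w : (Γ × M) × M => w.1.2 = w.2) DP.eqBase (F := fun w => G w.1)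
      inferInstance) hF

/-- the unique `x` with `P x` (junk if there is none) -/
noncomputable def the {M : Type u} [SetStr M] (P : M → Prop) : M :=
  open Classical in if h : ∃ x, P x ∧ ∀ y, P y → y = x then h.choose else SetStr.dflt

theorem the_spec {P : M → Prop} (h : ∃ x, P x ∧ ∀ y, P y → y = x) : P (the P) := by
  unfold the
  rw [dif_pos h]
  exact h.choose_spec.1

theorem the_eq {P : M → Prop} {x : M} (hx : P x) (h : ∀ y, P y → y = x) : the P = x :=
  h _ (the_spec ⟨x, hx, h⟩)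

theorem eq_the_iff {P : M → Prop} {x : M} : x = the P ↔
    (P x ∧ ∀ y, P y → y = x) ∨ (¬ (∃ x, P x ∧ ∀ y, P y → y = x) ∧ x = SetStr.dflt) := by
  by_cases h : ∃ x, P x ∧ ∀ y, P y → y = x
  · obtain ⟨z, hz, hz'⟩ := h
    have h1 : the P = z := the_eq hz hz'
    rw [h1]
    constructor
    · rintro rfl; exact Or.inl ⟨hz, hz'⟩
    · rintro (h | h)
      · exact hz' x h.1
      · exact absurd ⟨z, hz, hz'⟩ h.1
  · have : the P = SetStr.dflt := by unfold the; rw [dif_neg h]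
    rw [this]
    constructor
    · intro hx; exact Or.inr ⟨h, hx⟩
    · rintro (h' | h')
      · exact absurd ⟨x, h'⟩ h
      · exact h'.2

instance DF.the {P : Γ → M → Prop} [h : DP M (fun w : Γ × M => P w.1 w.2)] :
    DF (fun γ => the (P γ)) := by
  refine ⟨DP.congr (P := fun w : Γ × M => (P w.1 w.2 ∧ ∀ y, P w.1 y → y = w.2) ∨
    (¬ (∃ x, P w.1 x ∧ ∀ y, P w.1 y → y = x) ∧ w.2 = SetStr.dflt)) ?_ fun w => eq_the_iff⟩
  have h1 : DP M (fun w : (Γ × M) × M => P w.1.1 w.2) := DP.weaken1 h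
  have h2 : DP M (fun w : ((Γ × M) × M) × M => P w.1.1.1 w.2) := DP.weaken1 h1
  infer_instance

theorem DF.reidx {Δ : Type u} [Ctx M Δ] {F : Γ → M} (hF : DF F) (σ : Δ → Γ) (ρ : ℕ → ℕ)
    (h : ∀ δ (p : ℕ → M), Ctx.val (σ δ) p = Ctx.val δ p ∘ ρ) : DF (fun δ => F (σ δ)) := by
  refine ⟨DP.reidx (P := fun w : Γ × M => w.2 = F w.1) hF.out
    (fun w : Δ × M => (σ w.1, w.2)) (liftR ρ) ?_⟩
  intro δ p
  show scons δ.2 (Ctx.val (σ δ.1) p) = scons δ.2 (Ctx.val δ.1 p) ∘ liftR ρ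
  rw [h, scons_comp_liftR]

theorem DF.subst {P : Γ × M → M} (hP : DF P) {F : Γ → M} (hF : DF F) :
    DF (fun γ => P (γ, F γ)) := by
  refine ⟨?_⟩
  have h1 : DP M (fun w : (Γ × M) × M => w.1.2 = P (w.1.1, w.2)) :=
    DP.reidx (P := fun w : (Γ × M) × M => w.2 = P w.1) hP.out
      (fun w : (Γ × M) × M => ((w.1.1, w.2), w.1.2))
      (fun n => Nat.casesOn n 1 (fun k => Nat.casesOn k 0 (fun j => j + 2))) (by
        intro δ p
        funext n
        rcases n with _ | _ | n <;> rfl)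
  exact DP.subst (P := fun w : (Γ × M) × M => w.1.2 = P (w.1.1, w.2)) h1
    (F := fun w : Γ × M => F w.1) inferInstance

/-- one-variable definability (with parameters) -/
abbrev DP1 (P : M → Prop) : Prop := DP M (fun w : PUnit.{u+1} × M => P w.2)

/-- two-variable definability (with parameters) -/
abbrev DP2 (P : M → M → Prop) : Prop :=
  DP M (fun w : (PUnit.{u+1} × M) × M => P w.1.2 w.2)

/-- three-variable definability (with parameters) -/
abbrev DP3 (P : M → M → M → Prop) : Prop :=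
  DP M (fun w : ((PUnit.{u+1} × M) × M) × M => P w.1.1.2 w.1.2 w.2)

abbrev DF1 (P : M → M) : Prop := DF (fun w : PUnit.{u+1} × M => P w.2)

abbrev DF2 (P : M → M → M) : Prop :=
  DF (fun w : (PUnit.{u+1} × M) × M => P w.1.2 w.2)

theorem DP1.app (P : M → Prop) [h : DP1 P] {Γ : Type u} [Ctx M Γ] {F : Γ → M} [hF : DF F] :
    DP M (fun γ => P (F γ)) := by
  have h1 : DP M (fun w : Γ × M => P w.2) :=
    DP.reidx (P := fun w : PUnit.{u+1} × M => P w.2) h (fun w : Γ × M => (⟨⟩, w.2))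
      (fun n => Nat.casesOn n 0 (fun j => Ctx.len M Γ + j + 1)) (by
        intro δ p
        funext n
        rcases n with _ | n
        · rfl
        · exact (Ctx.val_add δ.1 p n).symm)
  exact DP.subst (P := fun w : Γ × M => P w.2) h1 hF

theorem DP2.app (P : M → M → Prop) [h : DP2 P] {Γ : Type u} [Ctx M Γ] {F G : Γ → M}
    [hF : DF F] [hG : DF G] : DP M (fun γ => P (F γ) (G γ)) := by
  have h1 : DP M (fun w : (Γ × M) × M => P w.1.2 w.2) :=
    DP.reidx (P := fun w : (PUnit.{u+1} × M) × M => P w.1.2 w.2) h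
      (fun w : (Γ × M) × M => ((⟨⟩, w.1.2), w.2))
      (fun n => Nat.casesOn n 0 (fun k => Nat.casesOn k 1 (fun j => Ctx.len M Γ + j + 2))) (by
        intro δ p
        funext n
        rcases n with _ | _ | n
        · rfl
        · rfl
        · exact (Ctx.val_add δ.1.1 p n).symm)
  have h2 : DP M (fun w : Γ × M => P w.2 (G w.1)) :=
    DP.subst (P := fun w : (Γ × M) × M => P w.1.2 w.2) h1 (F := fun w => G w.1) inferInstance
  exact DP.subst (P := fun w : Γ × M => P w.2 (G w.1)) h2 hF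

theorem DP3.app (P : M → M → M → Prop) [h : DP3 P] {Γ : Type u} [Ctx M Γ] {F G H : Γ → M}
    [hF : DF F] [hG : DF G] [hH : DF H] : DP M (fun γ => P (F γ) (G γ) (H γ)) := by
  have h1 : DP M (fun w : ((Γ × M) × M) × M => P w.1.1.2 w.1.2 w.2) :=
    DP.reidx (P := fun w : ((PUnit.{u+1} × M) × M) × M => P w.1.1.2 w.1.2 w.2) h
      (fun w : ((Γ × M) × M) × M => (((⟨⟩, w.1.1.2), w.1.2), w.2))
      (fun n => Nat.casesOn n 0 (fun k => Nat.casesOn k 1 (fun j =>
        Nat.casesOn j 2 (fun i => Ctx.len M Γ + i + 3)))) (by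
        intro δ p
        funext n
        rcases n with _ | _ | _ | n
        · rfl
        · rfl
        · rfl
        · exact (Ctx.val_add δ.1.1.1 p n).symm)
  have h2 : DP M (fun w : (Γ × M) × M => P w.1.2 w.2 (H w.1.1)) :=
    DP.subst (P := fun w : ((Γ × M) × M) × M => P w.1.1.2 w.1.2 w.2) h1
      (F := fun w => H w.1.1) inferInstance
  have h3 : DP M (fun w : Γ × M => P w.2 (G w.1) (H w.1)) :=
    DP.subst (P := fun w : (Γ × M) × M => P w.1.2 w.2 (H w.1.1)) h2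
      (F := fun w => G w.1) inferInstance
  exact DP.subst (P := fun w : Γ × M => P w.2 (G w.1) (H w.1)) h3 hF

theorem DF1.app (P : M → M) [h : DF1 P] {Γ : Type u} [Ctx M Γ] {F : Γ → M} [hF : DF F] :
    DF (fun γ => P (F γ)) := by
  have h1 : DF (fun w : Γ × M => P w.2) :=
    DF.reidx (F := fun w : PUnit.{u+1} × M => P w.2) h (fun w : Γ × M => (⟨⟩, w.2))
      (fun n => Nat.casesOn n 0 (fun j => Ctx.len M Γ + j + 1)) (by
        intro δ p
        funext n
        rcases n with _ | n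
        · rfl
        · exact (Ctx.val_add δ.1 p n).symm)
  exact DF.subst (P := fun w : Γ × M => P w.2) h1 hF

theorem DF2.app (P : M → M → M) [h : DF2 P] {Γ : Type u} [Ctx M Γ] {F G : Γ → M}
    [hF : DF F] [hG : DF G] : DF (fun γ => P (F γ) (G γ)) := by
  have h1 : DF (fun w : (Γ × M) × M => P w.1.2 w.2) :=
    DF.reidx (F := fun w : (PUnit.{u+1} × M) × M => P w.1.2 w.2) h
      (fun w : (Γ × M) × M => ((⟨⟩, w.1.2), w.2))
      (fun n => Nat.casesOn n 0 (fun k => Nat.casesOn k 1 (fun j => Ctx.len M Γ + j + 2))) (by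
        intro δ p
        funext n
        rcases n with _ | _ | n
        · rfl
        · rfl
        · exact (Ctx.val_add δ.1.1 p n).symm)
  have h2 : DF (fun w : Γ × M => P w.2 (G w.1)) :=
    DF.subst (P := fun w : (Γ × M) × M => P w.1.2 w.2) h1 (F := fun w => G w.1) inferInstance
  exact DF.subst (P := fun w : Γ × M => P w.2 (G w.1)) h2 hF

end vars

end Pool.Agent.Work.MP_bce22b_lc
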