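import Pool.Agent.Work.MP_bce22b_lc.Emb

/-!
From the official notions (in terms of the relation `E`) to the internal ones.
-/

namespace Pool.Agent.Work.MP_bce22b_lc

universe u

section

variable {M : Type u} [SetStr M]

/-- every model of ZF gives an instance of `ZFM` -/
theorem zfm_of_ZF (h : ZF (SetStr.E (M := M))) : ZFM M where
  ext := h.extensionality
  pair := h.pairing
  union := h.union
  power := h.power
  infinity := h.infinity
  sep := by
    intro P hP a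
    obtain ⟨φ, p, hφ⟩ := hP.out
    obtain ⟨c, hc⟩ := h.separation φ p a
    refine ⟨c, fun x => (hc x).trans (and_congr Iff.rfl ?_)⟩
    exact (hφ (⟨⟩, x)).symm

variable [ZFM M]

theorem pair_iff {p x y : M} : (∀ z : M, SetStr.E z p ↔ (∀ w, SetStr.E w z ↔ w = x) ∨
    (∀ w, SetStr.E w z ↔ w = x ∨ w = y)) ↔ p = op x y := by
  have h1 : ∀ z : M, (∀ w : M, SetStr.E w z ↔ w = x) ↔ z = upair x x := by
    intro z
    constructor
    · intro h
      refine ext fun w => ?_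
      rw [mem_upair]
      exact (h w).trans ⟨Or.inl, fun h => h.elim id id⟩
    · rintro rfl w
      exact mem_upair.trans ⟨fun h => h.elim id id, Or.inl⟩
  have h2 : ∀ z : M, (∀ w : M, SetStr.E w z ↔ w = x ∨ w = y) ↔ z = upair x y := by
    intro z
    constructor
    · intro h
      refine ext fun w => ?_
      rw [mem_upair]
      exact h w
    · rintro rfl w
      exact mem_upair
  constructor
  · intro h
    refine ext fun z => ?_
    unfold op
    rw [mem_upair, ← h1, ← h2]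
    exact h z
  · rintro rfl z
    rw [h1, h2]
    exact mem_upair

theorem Rel_iff {g x y : M} : Rel SetStr.E g x y ↔ op x y ∈ g := by
  unfold Rel
  constructor
  · rintro ⟨p, hp, h⟩
    rw [pair_iff] at h
    subst h
    exact hp
  · intro h
    exact ⟨_, h, pair_iff.2 rfl⟩

theorem FunOn_iff {g a : M} : FunOn SetStr.E g a ↔
    (∀ p : M, p ∈ g → ∃ x y, x ∈ a ∧ p = op x y) ∧
    ∀ x, x ∈ a → ∃ y, op x y ∈ g ∧ ∀ y', op x y' ∈ g → y' = y := by
  unfold FunOn
  simp only [Rel_iff, pair_iff]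
  rfl

theorem Inductive_iff {v : M} : Inductive SetStr.E v ↔ Ind v := by
  constructor
  · rintro ⟨⟨z, hz, hz'⟩, h⟩
    refine ⟨?_, fun n hn => ?_⟩
    · rw [← eq_emp hz']
      exact hz
    · obtain ⟨s, hs, hs'⟩ := h n hn
      have : suc n = s := ext fun x => mem_suc.trans (hs' x).symm
      rw [this]
      exact hs
  · rintro ⟨h0, h⟩
    exact ⟨⟨_, h0, fun x => not_mem_emp⟩, fun n hn => ⟨_, h n hn, fun x => mem_suc⟩⟩

theorem IsOmega_iff {w : M} : IsOmega SetStr.E w ↔ w = om M := by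
  constructor
  · intro h
    refine ext fun n => ?_
    rw [mem_om]
    refine (h n).trans (forall_congr' fun v => ?_)
    rw [Inductive_iff]
    rfl
  · rintro rfl n
    refine mem_om.trans (forall_congr' fun v => ?_)
    rw [Inductive_iff]
    rfl

theorem FinK_of_FinSet {a : M} (h : FinSet SetStr.E a) : FinK a := by
  obtain ⟨w, n, g, hw, hn, hg, ha, -⟩ := h
  rw [IsOmega_iff] at hw
  subst hw
  rw [FunOn_iff] at hg
  simp only [Rel_iff] at ha
  refine fink_sub (fink_family (a := n) (V := a) (fun x y => op x y ∈ g) (fink_om hn) ?_) ?_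
  · intro x hx
    obtain ⟨y, hy, hy'⟩ := hg.2 x hx
    refine fink_sub (fink_ins (y := y) fink_emp) fun z hz => ?_
    exact mem_ins.2 (Or.inr (hy' z (mem_sep.1 hz).2))
  · intro y hy
    obtain ⟨x, hx⟩ := (ha y).1 hy
    obtain ⟨x', y', hx', h'⟩ := hg.1 _ hx
    obtain ⟨rfl, rfl⟩ := op_inj.1 h'
    exact mem_sep.2 ⟨hy, x, hx', hx⟩

theorem TopSp_of_IsTop {X T : M} (h : IsTop SetStr.E X T) : TopSp X T where
  univ := h.whole
  sub := h.sub
  sU := by
    intro S hS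
    obtain ⟨V, hV, hV'⟩ := h.union S hS
    have : Pool.Agent.Work.MP_bce22b_lc.sU S = V := ext fun x => mem_sU.trans (hV' x).symm
    rw [this]
    exact hV
  inter := by
    intro U V hU hV
    obtain ⟨W, hW, hW'⟩ := h.inter U V hU hV
    have : Pool.Agent.Work.MP_bce22b_lc.inter U V = W := ext fun x => mem_inter.trans (hW' x).symm
    rw [this]
    exact hW

theorem Closed_iff {X T C : M} (hT : TopSp X T) : Closed SetStr.E X T C ↔ Cld X T C := by
  constructor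
  · rintro ⟨hC, U, hU, h⟩
    refine ⟨hC, ?_⟩
    have : diff X C = U := ext fun x => by
      rw [mem_diff]
      constructor
      · rintro ⟨hx, hxC⟩
        exact (h x hx).2 hxC
      · intro hx
        exact ⟨hT.sub U hU x hx, (h x (hT.sub U hU x hx)).1 hx⟩
    rw [this]
    exact hU
  · rintro ⟨hC, hU⟩
    refine ⟨hC, _, hU, fun x hx => ?_⟩
    exact mem_diff.trans ⟨fun h => h.2, fun h => ⟨hx, h⟩⟩

theorem Haus_of_Hausdorff {X T : M} (h : Hausdorff SetStr.E X T) : Haus X T := by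
  intro x y hx hy hne
  obtain ⟨U, V, hU, hV, hxU, hyV, hd⟩ := h x y hx hy hne
  exact ⟨U, V, hU, hV, hxU, hyV, fun z hz hz' => hd z ⟨hz, hz'⟩⟩

theorem Cpt_of_Compact {X T : M} (h : Compact SetStr.E X T) : Cpt X T := by
  intro C hC hcov
  obtain ⟨C', h1, h2, h3⟩ := h C hC hcov
  exact ⟨C', h1, FinK_of_FinSet h2, h3⟩

theorem NonScat_of_not_Scattered {X T : M} (h : ¬ Scattered SetStr.E X T) : NonScat X T := by
  unfold Scattered at h
  push Not at h
  obtain ⟨S, hS, hne, h⟩ := h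
  refine ⟨S, hS, hne, fun x hx U hU hxU => ?_⟩
  obtain ⟨y, hy, hyU, hyx⟩ := h x hx U hU hxU
  exact ⟨y, hy, hyU, hyx⟩

theorem MCF_of_WeaklyLoeb {X T : M} (hT : TopSp X T) (h : WeaklyLoeb SetStr.E X T) :
    ∃ f : M, MCF X T f := by
  obtain ⟨A, f, hA, hf, h⟩ := h
  rw [FunOn_iff] at hf
  refine ⟨f, fun C hC hne => ?_⟩
  have hCA : C ∈ A := (hA C).2 ⟨(Closed_iff hT).2 hC, hne⟩
  have hap : op C (ap f C) ∈ f := ap_spec (hf.2 C hCA)
  obtain ⟨h1, h2, h3⟩ := h C (ap f C) (Rel_iff.2 hap)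
  exact ⟨FinK_of_FinSet h1, h3, h2⟩

theorem CufBase_of_HasCufBase {T : M} (h : HasCufBase SetStr.E T) : ∃ F : M, CufBase T F := by
  obtain ⟨B, w, F, hw, hF, h1, h2, h3, h4⟩ := h
  rw [IsOmega_iff] at hw
  subst hw
  rw [FunOn_iff] at hF
  simp only [Rel_iff] at h1 h2
  have hap : ∀ n, n ∈ om M → op n (ap F n) ∈ F := fun n hn => ap_spec (hF.2 n hn)
  refine ⟨F, fun n hn => FinK_of_FinSet (h1 n _ (hap n hn)), fun n hn V hV => ?_,
    fun U hU x hx => ?_⟩
  · exact h3 V ((h2 V).2 ⟨n, _, hap n hn, hV⟩)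
  · obtain ⟨V, hV, hxV, hVU⟩ := h4 U hU x hx
    obtain ⟨n, D, hnD, hVD⟩ := (h2 V).1 hV
    obtain ⟨n', D', hn', h'⟩ := hF.1 _ hnD
    obtain ⟨rfl, rfl⟩ := op_inj.1 h'
    obtain ⟨y, hy, hy'⟩ := hF.2 n hn'
    have : ap F n = D := by rw [hy' _ hnD]; exact hy' _ (hap n hn')
    exact ⟨n, hn', V, this ▸ hVD, hxV, hVU⟩

theorem ContinuumLE_of {X : M} (h : ∃ g : M,
    (∀ z, z ∈ pw (om M) → ∃ x, x ∈ X ∧ op z x ∈ g ∧ ∀ x', op z x' ∈ g → x' = x) ∧
    ∀ z z' x, z ∈ pw (om M) → z' ∈ pw (om M) → op z x ∈ g → op z' x ∈ g → z = z') :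
    ContinuumLE SetStr.E X := by
  obtain ⟨g, h1, h2⟩ := h
  have key : ∀ z x, op z x ∈ sep (prd (pw (om M)) X) (fun p => p ∈ g) ↔
      (z ∈ pw (om M) ∧ x ∈ X) ∧ op z x ∈ g := by
    intro z x
    rw [mem_sep, op_mem_prd]
  refine ⟨om M, pw (om M), sep (prd (pw (om M)) X) (fun p => p ∈ g), IsOmega_iff.2 rfl,
    fun z => mem_pw, FunOn_iff.2 ⟨fun p hp => ?_, fun z hz => ?_⟩, ?_, ?_⟩
  · obtain ⟨x, y, hx, -, rfl⟩ := mem_prd.1 (mem_sep.1 hp).1
    exact ⟨x, y, hx, rfl⟩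
  · obtain ⟨x, hx, hzx, huniq⟩ := h1 z hz
    exact ⟨x, (key z x).2 ⟨⟨hz, hx⟩, hzx⟩, fun x' hx' => huniq x' ((key z x').1 hx').2⟩
  · intro z x hzx
    rw [Rel_iff, key] at hzx
    exact hzx.1.2
  · intro z z' x hz hz'
    rw [Rel_iff, key] at hz hz'
    exact h2 z z' x hz.1.1 hz'.1.1 hz.2 hz'.2

end

end Pool.Agent.Work.MP_bce22b_lc
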