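import Pool.Agent.Work.MP_bce22b_lc.Pre

/-!
The canonical chain of finite sets associated with a total preorder, and the refinement operator.
-/

namespace Pool.Agent.Work.MP_bce22b_lc

universe u

variable {M : Type u} [SetStr M] {Γ : Type u} [Ctx M Γ]

section defs

variable (X T F f P D d0 : M)

/-- the points having an equivalent twin in the same cell of the state `s = (K, n)` -/
noncomputable def Gs (r s : M) : M :=
  sep D (fun d => ∃ d', d' ∈ D ∧ d' ≠ d ∧ op d d' ∈ r ∧ op d' d ∈ r ∧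
    ∃ x, x ∈ fst s ∧ d ∈ Nb X T F (snd s) x ∧ d' ∈ Nb X T F (snd s) x)

instance df_Gs {A B : Γ → M} [DF A] [DF B] : DF (fun γ => Gs X T F D (A γ) (B γ)) := by
  unfold Gs
  infer_instance

/-- the least elements of `Gs` -/
noncomputable def Ks (r s : M) : M :=
  sep (Gs X T F D r s) (fun d => ∀ d', d' ∈ Gs X T F D r s → op d d' ∈ r)

instance df_Ks {A B : Γ → M} [DF A] [DF B] : DF (fun γ => Ks X T F D (A γ) (B γ)) := by
  unfold Ks
  infer_instance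

/-- admissibility of the level `m` for the set `K` after the state `s` -/
def Adm (s K m : M) : Prop :=
  snd s ∈ m ∧
  (∀ y, y ∈ K → ∀ x, x ∈ fst s → y ∈ Nb X T F (snd s) x →
    cl X T (Nb X T F m y) ⊆ Nb X T F (snd s) x) ∧
  ∀ y, y ∈ K → ∀ y', y' ∈ K → y ≠ y' → ∀ z, z ∈ Nb X T F m y → z ∉ Nb X T F m y'

instance dp_Adm {A B C : Γ → M} [DF A] [DF B] [DF C] :
    DP M (fun γ => Adm X T F (A γ) (B γ) (C γ)) := by
  unfold Adm
  infer_instance

/-- the next level -/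
noncomputable def ns (r s : M) : M := mu (fun m => Adm X T F s (Ks X T F D r s) m)

instance df_ns {A B : Γ → M} [DF A] [DF B] : DF (fun γ => ns X T F D (A γ) (B γ)) := by
  unfold ns
  infer_instance

/-- the next state -/
noncomputable def nx (r s : M) : M := op (Ks X T F D r s) (ns X T F D r s)

instance df_nx {A B : Γ → M} [DF A] [DF B] : DF (fun γ => nx X T F D (A γ) (B γ)) := by
  unfold nx
  infer_instance

/-- good states -/
def Gd (r s : M) : Prop :=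
  FinK (fst s) ∧ (∀ x, x ∈ fst s → ∀ y, y ∈ fst s → op x y ∈ r) ∧
  ∀ x, x ∈ fst s → ∀ y, y ∈ fst s → x ≠ y →
    ∀ z, z ∈ Nb X T F (snd s) x → z ∉ Nb X T F (snd s) y

instance dp_Gd {A B : Γ → M} [DF A] [DF B] : DP M (fun γ => Gd X T F (A γ) (B γ)) := by
  unfold Gd
  infer_instance

/-- set of good states -/
noncomputable def Vs (r : M) : M := sep (prd (pw D) (om M)) (fun s => Gd X T F r s)

instance df_Vs {A : Γ → M} [DF A] : DF (fun γ => Vs X T F D (A γ)) := by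
  unfold Vs
  infer_instance

/-- the sequence of states -/
noncomputable def st (r i : M) : M :=
  sq (Vs X T F D r) (op (upair d0 d0) (emp M)) (fun _ s => nx X T F D r s) i

instance df_st {A B : Γ → M} [DF A] [DF B] : DF (fun γ => st X T F D d0 (A γ) (B γ)) := by
  unfold st
  infer_instance

/-- the closed set defined by the chain -/
noncomputable def Cr (r : M) : M :=
  sep P (fun z => ∀ i, i ∈ om M → ∃ x, x ∈ fst (st X T F D d0 r i) ∧
    z ∈ Nb X T F (snd (st X T F D d0 r i)) x)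

instance df_Cr {A : Γ → M} [DF A] : DF (fun γ => Cr X T F P D d0 (A γ)) := by
  unfold Cr
  infer_instance

/-- the cells of stage `i` hit by `f` of the closed set -/
noncomputable def Ai (r i : M) : M :=
  sep (fst (st X T F D d0 r i)) (fun x => ∃ z, z ∈ ap f (Cr X T F P D d0 r) ∧
    z ∈ Nb X T F (snd (st X T F D d0 r i)) x)

instance df_Ai {A B : Γ → M} [DF A] [DF B] : DF (fun γ => Ai X T F f P D d0 (A γ) (B γ)) := by
  unfold Ai
  infer_instance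

/-- the set used for the refinement -/
noncomputable def As (r : M) : M :=
  sep D (fun x => ∃ i, (i ∈ om M ∧ Ai X T F f P D d0 r i ≠ fst (st X T F D d0 r i) ∧
    ∀ j, j ∈ om M → Ai X T F f P D d0 r j ≠ fst (st X T F D d0 r j) → i ⊆ j) ∧
    x ∈ Ai X T F f P D d0 r i)

instance df_As {A : Γ → M} [DF A] : DF (fun γ => As X T F f P D d0 (A γ)) := by
  unfold As
  infer_instance

end defs

variable [ZFM M]

section props

variable {X T F f P D d0 : M} (δ : M → M) [hd : DF1 δ]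
  (hT : TopSp X T) (hH : Haus X T) (hC : Cpt X T) (hB : CufBase T F) (hP : Perf X T P)
  (hf : MCF X T f) (hD : ∀ x, x ∈ D ↔ ∃ n, n ∈ om M ∧ x ∈ δ n)
  (hfin : ∀ n, n ∈ om M → FinK (δ n)) (hDP : D ⊆ P) (hd0 : d0 ∈ D)

theorem mem_Gs {r s d : M} : d ∈ Gs X T F D r s ↔ d ∈ D ∧ ∃ d', d' ∈ D ∧ d' ≠ d ∧
    op d d' ∈ r ∧ op d' d ∈ r ∧
    ∃ x, x ∈ fst s ∧ d ∈ Nb X T F (snd s) x ∧ d' ∈ Nb X T F (snd s) x := mem_sep

theorem mem_Ks {r s d : M} : d ∈ Ks X T F D r s ↔ d ∈ Gs X T F D r s ∧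
    ∀ d', d' ∈ Gs X T F D r s → op d d' ∈ r := mem_sep

theorem Gs_sub {r s : M} : Gs X T F D r s ⊆ D := fun _ h => (mem_Gs.1 h).1

theorem Ks_sub {r s : M} : Ks X T F D r s ⊆ D := fun _ h => (mem_Gs.1 (mem_Ks.1 h).1).1

theorem Ks_equiv {r s x y : M} (hx : x ∈ Ks X T F D r s) (hy : y ∈ Ks X T F D r s) :
    op x y ∈ r := (mem_Ks.1 hx).2 y (mem_Ks.1 hy).1

include hD hfin in
theorem Ks_fin {r s : M} (hrQ : r ⊆ Q0 D δ) : FinK (Ks X T F D r s) :=
  fink_class δ hD hfin hrQ Ks_sub fun _ hx _ hy => Ks_equiv hx hy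

include hD hfin in
theorem Ks_ne {r s : M} (hrQ : r ⊆ Q0 D δ) (hr : TP D r) (h : ∃ x, x ∈ Gs X T F D r s) :
    ∃ x, x ∈ Ks X T F D r s := by
  obtain ⟨x, hx, hmin⟩ := tp_min δ hD hfin hrQ hr Gs_sub h
  exact ⟨x, mem_Ks.2 ⟨hx, hmin⟩⟩

/-- twins stay in `Ks` -/
theorem Ks_twin {r s x : M} (hr : TP D r) (hx : x ∈ Ks X T F D r s) :
    ∃ x', x' ∈ Ks X T F D r s ∧ x' ≠ x ∧
      ∃ y, y ∈ fst s ∧ x ∈ Nb X T F (snd s) y ∧ x' ∈ Nb X T F (snd s) y := by
  obtain ⟨hG, hmin⟩ := mem_Ks.1 hx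
  obtain ⟨hxD, x', hx'D, hne, h1, h2, y, hy, hxy, hxy'⟩ := mem_Gs.1 hG
  refine ⟨x', mem_Ks.2 ⟨mem_Gs.2 ⟨hx'D, x, hxD, hne.symm, h2, h1, y, hy, hxy', hxy⟩,
    fun z hz => hr.2 x' x z h2 (hmin z hz)⟩, hne, y, hy, hxy, hxy'⟩

theorem mem_Vs {r s : M} : s ∈ Vs X T F D r ↔ (∃ K n, K ⊆ D ∧ n ∈ om M ∧ s = op K n) ∧
    Gd X T F r s := by
  unfold Vs
  rw [mem_sep, mem_prd]
  constructor
  · rintro ⟨⟨K, n, hK, hn, hs⟩, h⟩
    exact ⟨⟨K, n, mem_pw.1 hK, hn, hs⟩, h⟩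
  · rintro ⟨⟨K, n, hK, hn, hs⟩, h⟩
    exact ⟨⟨K, n, mem_pw.2 hK, hn, hs⟩, h⟩

theorem Vs_fst {r s : M} (hs : s ∈ Vs X T F D r) : fst s ⊆ D := by
  obtain ⟨⟨K, n, hK, -, rfl⟩, -⟩ := mem_Vs.1 hs
  rwa [fst_op]

theorem Vs_snd {r s : M} (hs : s ∈ Vs X T F D r) : snd s ∈ om M := by
  obtain ⟨⟨K, n, -, hn, rfl⟩, -⟩ := mem_Vs.1 hs
  rwa [snd_op]

include hT hH hC hB hD hfin hDP hP in
theorem ns_spec {r s : M} (hrQ : r ⊆ Q0 D δ) (hs : s ∈ Vs X T F D r) :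
    ns X T F D r s ∈ om M ∧ Adm X T F s (Ks X T F D r s) (ns X T F D r s) := by
  have hDX : D ⊆ X := sub_trans hDP hP.cld.1
  have hK := Ks_fin (X := X) (T := T) (F := F) (s := s) δ hD hfin hrQ
  have hs1 := Vs_fst hs
  have hs2 := Vs_snd hs
  obtain ⟨-, hG1, hG2, hG3⟩ := mem_Vs.1 hs
  have ev1 : Ev (fun m => snd s ∈ m) :=
    ⟨suc (snd s), suc_mem_om hs2, fun m _ h => h _ (mem_suc_self _)⟩
  have ev2 : Ev (fun m => ∀ y, y ∈ Ks X T F D r s → ∀ x, x ∈ fst s → y ∈ Nb X T F (snd s) x →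
      cl X T (Nb X T F m y) ⊆ Nb X T F (snd s) x) := by
    refine ev_all_fin (fun y m => ∀ x, x ∈ fst s → y ∈ Nb X T F (snd s) x →
      cl X T (Nb X T F m y) ⊆ Nb X T F (snd s) x) hK fun y hy => ?_
    refine ev_all_fin (fun x m => y ∈ Nb X T F (snd s) x →
      cl X T (Nb X T F m y) ⊆ Nb X T F (snd s) x) hG1 fun x hx => ?_
    by_cases hyx : y ∈ Nb X T F (snd s) x
    · exact (ev_Nb_cl hT hB hH hC (Nb_open hT hB hs2) hyx).mono fun m _ h _ => h
    · exact Ev.of_forall fun m _ h => absurd h hyx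
  have ev3 : Ev (fun m => ∀ y, y ∈ Ks X T F D r s → ∀ y', y' ∈ Ks X T F D r s → y ≠ y' →
      ∀ z, z ∈ Nb X T F m y → z ∉ Nb X T F m y') := by
    refine ev_all_fin (fun y m => ∀ y', y' ∈ Ks X T F D r s → y ≠ y' →
      ∀ z, z ∈ Nb X T F m y → z ∉ Nb X T F m y') hK fun y hy => ?_
    refine ev_all_fin (fun y' m => y ≠ y' →
      ∀ z, z ∈ Nb X T F m y → z ∉ Nb X T F m y') hK fun y' hy' => ?_
    by_cases hne : y = y'
    · exact Ev.of_forall fun m _ h => absurd hne h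
    · exact (ev_Nb_disj hT hB hH (hDX y (Ks_sub y hy)) (hDX y' (Ks_sub y' hy')) hne).mono
        fun m _ h _ => h
  have := mu_spec (fun m => Adm X T F s (Ks X T F D r s) m)
    ((ev1.and (ev2.and ev3)).mono fun m _ h => h).exists
  exact ⟨this.1, this.2.1⟩

include hT hH hC hB hD hfin hDP hP in
theorem nx_mem {r s : M} (hrQ : r ⊆ Q0 D δ) (hs : s ∈ Vs X T F D r) :
    nx X T F D r s ∈ Vs X T F D r := by
  obtain ⟨h1, h2⟩ := ns_spec δ hT hH hC hB hP hD hfin hDP hrQ hs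
  refine mem_Vs.2 ⟨⟨_, _, Ks_sub, h1, rfl⟩, ?_, ?_, ?_⟩
  · show FinK (fst (op _ _))
    rw [fst_op]
    exact Ks_fin δ hD hfin hrQ
  · show ∀ x, x ∈ fst (op _ _) → ∀ y, y ∈ fst (op _ _) → _
    rw [fst_op]
    exact fun x hx y hy => Ks_equiv hx hy
  · show ∀ x, x ∈ fst (op _ _) → ∀ y, y ∈ fst (op _ _) → x ≠ y →
      ∀ z, z ∈ Nb X T F (snd (op _ _)) x → z ∉ Nb X T F (snd (op _ _)) y
    rw [fst_op, snd_op]
    exact h2.2.2

include hd0 in
theorem s0_mem {r : M} (hr : TP D r) : op (upair d0 d0) (emp M) ∈ Vs X T F D r := by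
  have h1 : ∀ x, x ∈ upair d0 d0 → x = d0 := fun x hx => (mem_upair.1 hx).elim id id
  refine mem_Vs.2 ⟨⟨_, _, fun x hx => ?_, zero_mem_om, rfl⟩, ?_, ?_, ?_⟩
  · rw [h1 x hx]
    exact hd0
  · rw [fst_op]
    have : upair d0 d0 = ins d0 (emp M) := ext fun x => by
      rw [mem_upair, mem_ins]
      exact ⟨fun h => Or.inr (h.elim id id), fun h => Or.inl (h.resolve_left not_mem_emp)⟩
    rw [this]
    exact fink_ins fink_emp
  · rw [fst_op]
    intro x hx y hy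
    rw [h1 x hx, h1 y hy]
    exact (hr.1 d0 hd0 d0 hd0).elim id id
  · rw [fst_op]
    intro x hx y hy hne
    rw [h1 x hx, h1 y hy] at hne
    exact absurd rfl hne

section chain

variable {r : M} (hrQ : r ⊆ Q0 D δ) (hr : TP D r)

include hT hH hC hB hD hfin hDP hP hd0 hrQ hr

theorem st_mem {i : M} (hi : i ∈ om M) : st X T F D d0 r i ∈ Vs X T F D r :=
  sq_mem (fun _ s => nx X T F D r s) (s0_mem hd0 hr)
    (fun _ _ _ hs => nx_mem δ hT hH hC hB hP hD hfin hDP hrQ hs) hi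

theorem st_zero : st X T F D d0 r (emp M) = op (upair d0 d0) (emp M) :=
  sq_zero (fun _ s => nx X T F D r s) (s0_mem hd0 hr)
    (fun _ _ _ hs => nx_mem δ hT hH hC hB hP hD hfin hDP hrQ hs)

theorem st_suc {i : M} (hi : i ∈ om M) :
    st X T F D d0 r (suc i) = nx X T F D r (st X T F D d0 r i) :=
  sq_suc (fun _ s => nx X T F D r s) (s0_mem hd0 hr)
    (fun _ _ _ hs => nx_mem δ hT hH hC hB hP hD hfin hDP hrQ hs) hi

theorem st_suc_fst {i : M} (hi : i ∈ om M) :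
    fst (st X T F D d0 r (suc i)) = Ks X T F D r (st X T F D d0 r i) := by
  rw [st_suc δ hT hH hC hB hP hD hfin hDP hd0 hrQ hr hi]
  exact fst_op

theorem st_suc_snd {i : M} (hi : i ∈ om M) :
    snd (st X T F D d0 r (suc i)) = ns X T F D r (st X T F D d0 r i) := by
  rw [st_suc δ hT hH hC hB hP hD hfin hDP hd0 hrQ hr hi]
  exact snd_op

theorem st_adm {i : M} (hi : i ∈ om M) : Adm X T F (st X T F D d0 r i)
    (fst (st X T F D d0 r (suc i))) (snd (st X T F D d0 r (suc i))) := by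
  rw [st_suc_fst δ hT hH hC hB hP hD hfin hDP hd0 hrQ hr hi,
    st_suc_snd δ hT hH hC hB hP hD hfin hDP hd0 hrQ hr hi]
  exact (ns_spec δ hT hH hC hB hP hD hfin hDP hrQ
    (st_mem δ hT hH hC hB hP hD hfin hDP hd0 hrQ hr hi)).2

theorem st_snd_om {i : M} (hi : i ∈ om M) : snd (st X T F D d0 r i) ∈ om M :=
  Vs_snd (st_mem δ hT hH hC hB hP hD hfin hDP hd0 hrQ hr hi)

theorem st_fst_sub {i : M} (hi : i ∈ om M) : fst (st X T F D d0 r i) ⊆ D :=
  Vs_fst (st_mem δ hT hH hC hB hP hD hfin hDP hd0 hrQ hr hi)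

theorem st_gd {i : M} (hi : i ∈ om M) : Gd X T F r (st X T F D d0 r i) :=
  (mem_Vs.1 (st_mem δ hT hH hC hB hP hD hfin hDP hd0 hrQ hr hi)).2

theorem st_level {i : M} (hi : i ∈ om M) : i ⊆ snd (st X T F D d0 r i) := by
  refine om_ind (fun i : M => i ⊆ snd (st X T F D d0 r i))
    (fun x hx => absurd hx not_mem_emp) ?_ hi
  intro i hi ih x hx
  have h1 := (st_adm δ hT hH hC hB hP hD hfin hDP hd0 hrQ hr hi).1
  have h2 := st_snd_om δ hT hH hC hB hP hD hfin hDP hd0 hrQ hr (suc_mem_om hi)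
  rcases mem_suc.1 hx with h | rfl
  · exact om_sub_of_mem h2 h1 x (ih x h)
  · exact om_mem_of_sub_mem h2 hi ih h1

theorem st_cell {i z y : M} (hi : i ∈ om M) (hy : y ∈ fst (st X T F D d0 r (suc i)))
    (hz : z ∈ cl X T (Nb X T F (snd (st X T F D d0 r (suc i))) y)) :
    ∃ x, x ∈ fst (st X T F D d0 r i) ∧ z ∈ Nb X T F (snd (st X T F D d0 r i)) x := by
  have hadm := st_adm δ hT hH hC hB hP hD hfin hDP hd0 hrQ hr hi
  have hy' := hy
  rw [st_suc_fst δ hT hH hC hB hP hD hfin hDP hd0 hrQ hr hi] at hy'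
  obtain ⟨hyD, -, -, -, -, -, x, hx, hyx, -⟩ := mem_Gs.1 (mem_Ks.1 hy').1
  exact ⟨x, hx, hadm.2.1 y hy x hx hyx z hz⟩

/-- the union of cells is decreasing -/
theorem st_union_decr {i j z : M} (hi : i ∈ om M) (hj : j ∈ om M) (hij : i ⊆ j)
    (hz : ∃ x, x ∈ fst (st X T F D d0 r j) ∧ z ∈ Nb X T F (snd (st X T F D d0 r j)) x) :
    ∃ x, x ∈ fst (st X T F D d0 r i) ∧ z ∈ Nb X T F (snd (st X T F D d0 r i)) x := by
  have key : i ⊆ j → (∃ x, x ∈ fst (st X T F D d0 r j) ∧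
      z ∈ Nb X T F (snd (st X T F D d0 r j)) x) →
      ∃ x, x ∈ fst (st X T F D d0 r i) ∧ z ∈ Nb X T F (snd (st X T F D d0 r i)) x := by
    refine om_ind (fun j : M => i ⊆ j → (∃ x, x ∈ fst (st X T F D d0 r j) ∧
      z ∈ Nb X T F (snd (st X T F D d0 r j)) x) →
      ∃ x, x ∈ fst (st X T F D d0 r i) ∧ z ∈ Nb X T F (snd (st X T F D d0 r i)) x) ?_ ?_ hj
    · intro h hz
      have : i = emp M := eq_emp fun x hx => not_mem_emp (h x hx)
      rw [this]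
      exact hz
    · intro j hj ih h hz
      by_cases hij : i ⊆ j
      · obtain ⟨y, hy, hzy⟩ := hz
        refine ih hij (st_cell δ hT hH hC hB hP hD hfin hDP hd0 hrQ hr hj hy
          (sub_cl Nb_sub_X z hzy))
      · have : i = suc j := by
          refine sub_antisymm h ?_
          rcases om_le_or hi hj with h' | h'
          · exact absurd h' hij
          · exact suc_sub_of_mem hi h'
        rw [this]
        exact hz
  exact key hij hz

theorem Cr_spec {z : M} : z ∈ Cr X T F P D d0 r ↔ z ∈ P ∧ ∀ i, i ∈ om M →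
    ∃ x, x ∈ fst (st X T F D d0 r i) ∧ z ∈ Nb X T F (snd (st X T F D d0 r i)) x := mem_sep

theorem cl_union_sub {i z : M} (hi : i ∈ om M) (hzX : z ∈ X)
    (h : ¬ ∃ x, x ∈ fst (st X T F D d0 r i) ∧ z ∈ Nb X T F (snd (st X T F D d0 r i)) x) :
    ∃ U, U ∈ T ∧ z ∈ U ∧ ∀ y, y ∈ fst (st X T F D d0 r (suc i)) →
      ∀ t, t ∈ U → t ∉ Nb X T F (snd (st X T F D d0 r (suc i))) y := by
  refine nhd_all_fin hT (fun y U => ∀ t, t ∈ U →
    t ∉ Nb X T F (snd (st X T F D d0 r (suc i))) y)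
    (st_gd δ hT hH hC hB hP hD hfin hDP hd0 hrQ hr (suc_mem_om hi)).1 hzX
    (fun W U V h hsub t ht => h t (hsub t ht)) fun y hy => ?_
  refine not_mem_cl hzX fun hzc => h ?_
  exact st_cell δ hT hH hC hB hP hD hfin hDP hd0 hrQ hr hi hy hzc

theorem Cr_cld : Cld X T (Cr X T F P D d0 r) := by
  have hspec := fun {z : M} => Cr_spec (z := z) δ hT hH hC hB hP hD hfin hDP hd0 hrQ hr
  refine cld_of_nhds hT (fun z hz => hP.cld.1 z (hspec.1 hz).1) fun z hzX hz => ?_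
  by_cases hzP : z ∈ P
  · rw [hspec] at hz
    have h2 : ∃ i, i ∈ om M ∧ ¬ ∃ x, x ∈ fst (st X T F D d0 r i) ∧
        z ∈ Nb X T F (snd (st X T F D d0 r i)) x := by
      by_contra hcon
      refine hz ⟨hzP, fun i hi => ?_⟩
      by_contra h
      exact hcon ⟨i, hi, h⟩
    obtain ⟨i, hi, h⟩ := h2
    obtain ⟨U, hU, hzU, hall⟩ :=
      cl_union_sub δ hT hH hC hB hP hD hfin hDP hd0 hrQ hr hi hzX h
    refine ⟨U, hU, hzU, fun t ht htC => ?_⟩
    obtain ⟨y, hy, hty⟩ := (hspec.1 htC).2 (suc i) (suc_mem_om hi)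
    exact hall y hy t ht hty
  · exact ⟨_, hP.cld.2, mem_diff.2 ⟨hzX, hzP⟩, fun t ht htC =>
      (mem_diff.1 ht).2 (hspec.1 htC).1⟩

variable (hne : ∀ i, i ∈ om M → ∃ x, x ∈ fst (st X T F D d0 r i))

include hne

theorem Cr_ne : ∃ z, z ∈ Cr X T F P D d0 r := by
  obtain ⟨z, hzX, hz⟩ := cpt_decr hC (fun i => sep P (fun z => ∃ x, x ∈ fst (st X T F D d0 r i) ∧
      z ∈ Nb X T F (snd (st X T F D d0 r i)) x))
    (fun i _ z hz => hP.cld.1 z (mem_sep.1 hz).1)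
    (fun i hi => by
      obtain ⟨x, hx⟩ := hne i hi
      have hxD := st_fst_sub δ hT hH hC hB hP hD hfin hDP hd0 hrQ hr hi x hx
      exact ⟨x, mem_sep.2 ⟨hDP x hxD, x, hx, self_mem_Nb (hP.cld.1 x (hDP x hxD))⟩⟩)
    (fun i j hi hj hij z hz => by
      rw [mem_sep] at hz ⊢
      exact ⟨hz.1, st_union_decr δ hT hH hC hB hP hD hfin hDP hd0 hrQ hr hi hj hij hz.2⟩)
  refine ⟨z, (Cr_spec δ hT hH hC hB hP hD hfin hDP hd0 hrQ hr).2 ⟨?_, fun i hi => ?_⟩⟩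
  · exact cl_sub_of_cld hP.cld (fun t ht => (mem_sep.1 ht).1) z (hz (emp M) zero_mem_om)
  · by_contra h
    obtain ⟨U, hU, hzU, hall⟩ :=
      cl_union_sub δ hT hH hC hB hP hD hfin hDP hd0 hrQ hr hi hzX h
    obtain ⟨t, ht, htA⟩ := (mem_cl.1 (hz (suc i) (suc_mem_om hi))).2 U hU hzU
    obtain ⟨-, y, hy, hty⟩ := mem_sep.1 htA
    exact hall y hy t ht hty

include hf

/-- some stage is split by the finite set -/
theorem exists_split : ∃ i, i ∈ om M ∧ Ai X T F f P D d0 r i ≠ fst (st X T F D d0 r i) := by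
  by_contra hcon
  push Not at hcon
  have hcld := Cr_cld δ hT hH hC hB hP hD hfin hDP hd0 hrQ hr
  have hCne := Cr_ne δ hT hH hC hB hP hD hfin hDP hd0 hrQ hr hne
  obtain ⟨hfin', hsub, -⟩ := hf _ hcld hCne
  have hX : ∀ z, z ∈ ap f (Cr X T F P D d0 r) → z ∈ X := fun z hz => hcld.1 z (hsub z hz)
  have hev : Ev (fun m => ∀ z, z ∈ ap f (Cr X T F P D d0 r) →
      ∀ z', z' ∈ ap f (Cr X T F P D d0 r) → z ≠ z' →
      ∀ d, z ∈ Nb X T F m d → z' ∉ Nb X T F m d) := by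
    refine ev_all_fin (fun z m => ∀ z', z' ∈ ap f (Cr X T F P D d0 r) → z ≠ z' →
      ∀ d, z ∈ Nb X T F m d → z' ∉ Nb X T F m d) hfin' fun z hz => ?_
    refine ev_all_fin (fun z' m => z ≠ z' →
      ∀ d, z ∈ Nb X T F m d → z' ∉ Nb X T F m d) hfin' fun z' hz' => ?_
    by_cases h : z = z'
    · exact Ev.of_forall fun m _ h' => absurd h h'
    · exact (ev_Nb_sep hT hB hH hC (hX z hz) (hX z' hz') h).mono fun m _ h _ => h
  obtain ⟨m₀, hm₀, hev⟩ := hev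
  -- stage `m₀`
  have hsep := hev _ (st_snd_om δ hT hH hC hB hP hD hfin hDP hd0 hrQ hr hm₀)
    (st_level δ hT hH hC hB hP hD hfin hDP hd0 hrQ hr hm₀)
  obtain ⟨y, hy⟩ := hne (suc m₀) (suc_mem_om hm₀)
  have hy' := hy
  rw [st_suc_fst δ hT hH hC hB hP hD hfin hDP hd0 hrQ hr hm₀] at hy'
  obtain ⟨y', hyK', hyne, x, hx, hyx, hyx'⟩ := Ks_twin hr hy'
  rw [← st_suc_fst δ hT hH hC hB hP hD hfin hDP hd0 hrQ hr hm₀] at hyK'
  have hhit : ∀ y, y ∈ fst (st X T F D d0 r (suc m₀)) → ∃ z, z ∈ ap f (Cr X T F P D d0 r) ∧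
      z ∈ Nb X T F (snd (st X T F D d0 r (suc m₀))) y := by
    intro y hy
    rw [← hcon (suc m₀) (suc_mem_om hm₀)] at hy
    unfold Ai at hy
    exact (mem_sep.1 hy).2
  obtain ⟨z, hz, hzy⟩ := hhit y hy
  obtain ⟨z', hz', hzy'⟩ := hhit y' hyK'
  have hadm := st_adm δ hT hH hC hB hP hD hfin hDP hd0 hrQ hr hm₀
  have hzx := hadm.2.1 y hy x hx hyx z (sub_cl Nb_sub_X z hzy)
  have hzx' := hadm.2.1 y' hyK' x hx hyx' z' (sub_cl Nb_sub_X z' hzy')
  by_cases hzz : z = z'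
  · subst hzz
    exact hadm.2.2 y' hyK' y hy hyne z hzy' hzy
  · exact hsep z hz z' hz' hzz x hzx hzx'

end chain

include hT hH hC hB hD hfin hDP hP hd0 hf

/-- at a fixed point of the refinement operator the chain reaches a dead end -/
theorem dead_end {r : M} (hrQ : r ⊆ Q0 D δ) (hr : TP D r)
    (hfix : ref r (As X T F f P D d0 r) = r) :
    ∃ s, s ∈ Vs X T F D r ∧ (∃ x, x ∈ fst s) ∧ ∀ x, x ∉ Gs X T F D r s := by
  by_contra hcon
  have hstep : ∀ s, s ∈ Vs X T F D r → (∃ x, x ∈ fst s) → ∃ x, x ∈ Ks X T F D r s := by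
    intro s hs hne
    refine Ks_ne δ hD hfin hrQ hr ?_
    by_contra h
    push Not at h
    exact hcon ⟨s, hs, hne, h⟩
  have hne : ∀ i, i ∈ om M → ∃ x, x ∈ fst (st X T F D d0 r i) := by
    intro i hi
    refine om_ind (fun i : M => ∃ x, x ∈ fst (st X T F D d0 r i)) ?_ ?_ hi
    · rw [st_zero δ hT hH hC hB hP hD hfin hDP hd0 hrQ hr, fst_op]
      exact ⟨d0, mem_upair.2 (Or.inl rfl)⟩
    · intro i hi ih
      rw [st_suc_fst δ hT hH hC hB hP hD hfin hDP hd0 hrQ hr hi]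
      exact hstep _ (st_mem δ hT hH hC hB hP hD hfin hDP hd0 hrQ hr hi) ih
  obtain ⟨i, hi, hsplit, hleast⟩ := om_least
    (fun i => Ai X T F f P D d0 r i ≠ fst (st X T F D d0 r i))
    (exists_split δ hT hH hC hB hP hf hD hfin hDP hd0 hrQ hr hne)
  have hAsub : Ai X T F f P D d0 r i ⊆ fst (st X T F D d0 r i) := fun x hx => by
    unfold Ai at hx
    exact (mem_sep.1 hx).1
  have hKD := st_fst_sub δ hT hH hC hB hP hD hfin hDP hd0 hrQ hr hi
  -- the selected set is `Ai i`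
  have hAs : ∀ x, x ∈ As X T F f P D d0 r ↔ x ∈ Ai X T F f P D d0 r i := by
    intro x
    unfold As
    rw [mem_sep]
    constructor
    · rintro ⟨-, j, ⟨hj, hj1, hj2⟩, hx⟩
      have : i = j := sub_antisymm (hleast j hj hj1) (hj2 i hi hsplit)
      rwa [this]
    · intro hx
      exact ⟨hKD x (hAsub x hx), i, ⟨hi, hsplit, hleast⟩, hx⟩
  -- it is nonempty
  have hcld := Cr_cld δ hT hH hC hB hP hD hfin hDP hd0 hrQ hr
  have hCne := Cr_ne δ hT hH hC hB hP hD hfin hDP hd0 hrQ hr hne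
  obtain ⟨-, hsub, z, hz⟩ := hf _ hcld hCne
  obtain ⟨x, hx, hzx⟩ := ((Cr_spec δ hT hH hC hB hP hD hfin hDP hd0 hrQ hr).1 (hsub z hz)).2 i hi
  have hxA : x ∈ Ai X T F f P D d0 r i := by
    unfold Ai
    exact mem_sep.2 ⟨hx, z, hz, hzx⟩
  -- and proper
  have hy : ∃ y, y ∈ fst (st X T F D d0 r i) ∧ y ∉ Ai X T F f P D d0 r i := by
    by_contra h
    push Not at h
    exact hsplit (sub_antisymm hAsub h)
  obtain ⟨y, hy, hyA⟩ := hy
  have hgd := (st_gd δ hT hH hC hB hP hD hfin hDP hd0 hrQ hr hi).2.1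
  have hxy : op x y ∈ ref r (As X T F f P D d0 r) := by
    rw [hfix]
    exact hgd x hx y hy
  rw [mem_ref] at hxy
  exact hxy.2 ⟨hgd y hy x hx, (hAs x).2 hxA, fun h => hyA ((hAs y).1 h)⟩

end props

end Pool.Agent.Work.MP_bce22b_lc
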