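import Mathlib.Tactic

/-!
The notions used in the statement: formulas of set theory, models of ZF, and the topological
notions of the problem, all relativised to a model `(M, E)`, where `E x a` reads `x ∈ a`.
-/

namespace Pool.Agent.Work.MP_bce22b_lc

universe u

/-- Formulas of the language of set theory (de Bruijn style: `all` binds variable `0`). -/
inductive Fml : Type
  | mem (i j : ℕ) : Fml
  | eq (i j : ℕ) : Fml
  | neg (φ : Fml) : Fml
  | and (φ ψ : Fml) : Fml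
  | all (φ : Fml) : Fml

/-- The valuation `x, v 0, v 1, ...`. -/
def scons {M : Type u} (x : M) (v : ℕ → M) : ℕ → M
  | 0 => x
  | n + 1 => v n

/-- Satisfaction of formulas in the structure `(M, E)`. -/
def Sat {M : Type u} (E : M → M → Prop) : Fml → (ℕ → M) → Prop
  | .mem i j, v => E (v i) (v j)
  | .eq i j, v => v i = v j
  | .neg φ, v => ¬ Sat E φ v
  | .and φ ψ, v => Sat E φ v ∧ Sat E ψ v
  | .all φ, v => ∀ x, Sat E φ (scons x v)

/-- `(M, E)` is a model of ZF: all the axioms, with the separation and replacement schemes for all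
first-order formulas with parameters. -/
structure ZF {M : Type u} (E : M → M → Prop) : Prop where
  extensionality : ∀ a b, (∀ x, E x a ↔ E x b) → a = b
  foundation : ∀ a, (∃ x, E x a) → ∃ x, E x a ∧ ∀ y, E y x → ¬ E y a
  pairing : ∀ a b, ∃ c, ∀ x, E x c ↔ x = a ∨ x = b
  union : ∀ a, ∃ c, ∀ x, E x c ↔ ∃ y, E y a ∧ E x y
  power : ∀ a, ∃ c, ∀ x, E x c ↔ ∀ y, E y x → E y a
  infinity : ∃ w, (∃ z, E z w ∧ ∀ x, ¬ E x z) ∧
    ∀ n, E n w → ∃ s, E s w ∧ ∀ x, E x s ↔ E x n ∨ x = n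
  separation : ∀ (φ : Fml) (v : ℕ → M) (a : M), ∃ c, ∀ x, E x c ↔ E x a ∧ Sat E φ (scons x v)
  replacement : ∀ (φ : Fml) (v : ℕ → M) (a : M),
    (∀ x, E x a → ∃! y, Sat E φ (scons x (scons y v))) →
    ∃ c, ∀ y, E y c ↔ ∃ x, E x a ∧ Sat E φ (scons x (scons y v))

section

variable {M : Type u} (E : M → M → Prop)

/-- `(x, y) ∈ g`, with Kuratowski pairs `(x, y) = {{x}, {x, y}}`. -/
def Rel (g x y : M) : Prop :=
  ∃ p, E p g ∧ ∀ z, E z p ↔ (∀ w, E w z ↔ w = x) ∨ (∀ w, E w z ↔ w = x ∨ w = y)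

/-- `g` is a function with domain `a`. -/
def FunOn (g a : M) : Prop :=
  (∀ p, E p g → ∃ x y, E x a ∧
    ∀ z, E z p ↔ (∀ w, E w z ↔ w = x) ∨ (∀ w, E w z ↔ w = x ∨ w = y)) ∧
  ∀ x, E x a → ∃! y, Rel E g x y

/-- `v` is an inductive set. -/
def Inductive (v : M) : Prop :=
  (∃ z, E z v ∧ ∀ x, ¬ E x z) ∧ ∀ n, E n v → ∃ s, E s v ∧ ∀ x, E x s ↔ E x n ∨ x = n

/-- `w` is the set `ω` of natural numbers (the least inductive set). -/
def IsOmega (w : M) : Prop := ∀ n, E n w ↔ ∀ v, Inductive E v → E n v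

/-- `a` is finite: some bijection maps a natural number onto `a`. -/
def FinSet (a : M) : Prop := ∃ w n g, IsOmega E w ∧ E n w ∧ FunOn E g n ∧
  (∀ y, E y a ↔ ∃ x, Rel E g x y) ∧ ∀ x x' y, Rel E g x y → Rel E g x' y → x = x'

/-- `T` is a topology on `X`. -/
structure IsTop (X T : M) : Prop where
  sub : ∀ U, E U T → ∀ x, E x U → E x X
  whole : E X T
  union : ∀ S, (∀ U, E U S → E U T) → ∃ V, E V T ∧ ∀ x, E x V ↔ ∃ U, E U S ∧ E x U
  inter : ∀ U V, E U T → E V T → ∃ W, E W T ∧ ∀ x, E x W ↔ E x U ∧ E x V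

/-- `C` is a closed subset of `X`. -/
def Closed (X T C : M) : Prop :=
  (∀ x, E x C → E x X) ∧ ∃ U, E U T ∧ ∀ x, E x X → (E x U ↔ ¬ E x C)

/-- Hausdorff spaces. -/
def Hausdorff (X T : M) : Prop := ∀ x y, E x X → E y X → x ≠ y →
  ∃ U V, E U T ∧ E V T ∧ E x U ∧ E y V ∧ ∀ z, ¬ (E z U ∧ E z V)

/-- Compact spaces: every open cover has a finite subcover. -/
def Compact (X T : M) : Prop := ∀ C, (∀ U, E U C → E U T) → (∀ x, E x X → ∃ U, E U C ∧ E x U) →
  ∃ C', (∀ U, E U C' → E U C) ∧ FinSet E C' ∧ ∀ x, E x X → ∃ U, E U C' ∧ E x U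

/-- Scattered spaces: every nonempty subspace has an isolated point. -/
def Scattered (X T : M) : Prop := ∀ S, (∀ x, E x S → E x X) → (∃ x, E x S) →
  ∃ x, E x S ∧ ∃ U, E U T ∧ E x U ∧ ∀ y, E y S → E y U → y = x

/-- Weakly Loeb spaces: the family of all nonempty closed subsets has a multiple choice
function. -/
def WeaklyLoeb (X T : M) : Prop := ∃ A f, (∀ C, E C A ↔ Closed E X T C ∧ ∃ x, E x C) ∧
  FunOn E f A ∧ ∀ C D, Rel E f C D → FinSet E D ∧ (∃ x, E x D) ∧ ∀ x, E x D → E x C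

/-- The space has a base which is a cuf set, i.e. the union of a sequence `(F n)_{n ∈ ω}` of finite
sets. -/
def HasCufBase (T : M) : Prop := ∃ B w F, IsOmega E w ∧ FunOn E F w ∧
  (∀ n D, Rel E F n D → FinSet E D) ∧ (∀ V, E V B ↔ ∃ n D, Rel E F n D ∧ E V D) ∧
  (∀ V, E V B → E V T) ∧
  ∀ U, E U T → ∀ x, E x U → ∃ V, E V B ∧ E x V ∧ ∀ y, E y V → E y U

/-- `|𝒫(ω)| ≤ |X|`: there is an injection from the power set of `ω` into `X`. -/
def ContinuumLE (X : M) : Prop := ∃ w P g, IsOmega E w ∧ (∀ z, E z P ↔ ∀ n, E n z → E n w) ∧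
  FunOn E g P ∧ (∀ z x, Rel E g z x → E x X) ∧
  ∀ z z' x, Rel E g z x → Rel E g z' x → z = z'

end

end Pool.Agent.Work.MP_bce22b_lc
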