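import Pool.Agent.Work.MP_bce22b_lc.Chain

/-!
The final embedding of the power set of omega, and the main internal theorem.
-/

namespace Pool.Agent.Work.MP_bce22b_lc

universe u

variable {M : Type u} [SetStr M] {Γ : Type u} [Ctx M Γ]

section defs

variable (X T F D r W : M)

/-- candidates for the second point -/
noncomputable def Cd (s : M) : M := sep D (fun x => x ∈ Nb X T F (snd s) (fst s) ∧ x ≠ fst s)

instance df_Cd {A : Γ → M} [DF A] : DF (fun γ => Cd X T F D (A γ)) := by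
  unfold Cd
  infer_instance

/-- the second point -/
noncomputable def E2 (s : M) : M :=
  the (fun x => x ∈ Cd X T F D s ∧ ∀ y, y ∈ Cd X T F D s → op x y ∈ r)

instance df_E2 {A : Γ → M} [DF A] : DF (fun γ => E2 X T F D r (A γ)) := by
  unfold E2
  infer_instance

/-- admissible levels -/
def Adm2 (s m : M) : Prop :=
  snd s ∈ m ∧ cl X T (Nb X T F m (fst s)) ⊆ Nb X T F (snd s) (fst s) ∧
    cl X T (Nb X T F m (E2 X T F D r s)) ⊆ Nb X T F (snd s) (fst s) ∧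
    ∀ t, t ∈ Nb X T F m (fst s) → t ∉ Nb X T F m (E2 X T F D r s)

instance dp_Adm2 {A B : Γ → M} [DF A] [DF B] :
    DP M (fun γ => Adm2 X T F D r (A γ) (B γ)) := by
  unfold Adm2
  infer_instance

/-- the next level -/
noncomputable def L2 (s : M) : M := mu (fun m => Adm2 X T F D r s m)

instance df_L2 {A : Γ → M} [DF A] : DF (fun γ => L2 X T F D r (A γ)) := by
  unfold L2
  infer_instance

/-- the next point -/
noncomputable def P2 (z k s : M) : M :=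
  the (fun t => (k ∈ z ∧ t = E2 X T F D r s) ∨ (k ∉ z ∧ t = fst s))

instance df_P2 {A B C : Γ → M} [DF A] [DF B] [DF C] :
    DF (fun γ => P2 X T F D r (A γ) (B γ) (C γ)) := by
  unfold P2
  infer_instance

/-- the next state -/
noncomputable def N2 (z k s : M) : M := op (P2 X T F D r z k s) (L2 X T F D r s)

instance df_N2 {A B C : Γ → M} [DF A] [DF B] [DF C] :
    DF (fun γ => N2 X T F D r (A γ) (B γ) (C γ)) := by
  unfold N2
  infer_instance

/-- the states -/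
noncomputable def V2 : M := sep (prd D (om M)) (fun s => Nb X T F (snd s) (fst s) ⊆ W)

/-- the sequence of states -/
noncomputable def S2 (s0 z k : M) : M := sq (V2 X T F D W) s0 (fun k s => N2 X T F D r z k s) k

instance df_S2 {A B : Γ → M} [DF A] [DF B] {s0 : M} :
    DF (fun γ => S2 X T F D r W s0 (A γ) (B γ)) := by
  unfold S2
  infer_instance

end defs

variable [ZFM M]

section props

variable {X T F P D r W s0 : M} (δ : M → M) [hd : DF1 δ]
  (hT : TopSp X T) (hH : Haus X T) (hC : Cpt X T) (hB : CufBase T F) (hP : Perf X T P)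
  (hD : ∀ x, x ∈ D ↔ ∃ n, n ∈ om M ∧ x ∈ δ n)
  (hfin : ∀ n, n ∈ om M → FinK (δ n)) (hDP : D ⊆ P)
  (hdense : ∀ U, U ∈ T → ∀ x, x ∈ U → x ∈ P → ∃ d, d ∈ D ∧ d ∈ U)
  (hrQ : r ⊆ Q0 D δ) (hr : TP D r)
  (hanti : ∀ x y, x ∈ D → y ∈ D → x ∈ W → y ∈ W → op x y ∈ r → op y x ∈ r → x = y)
  (hs0 : s0 ∈ V2 X T F D W)

theorem mem_V2 {s : M} : s ∈ V2 X T F D W ↔ (∃ x n, x ∈ D ∧ n ∈ om M ∧ s = op x n) ∧
    Nb X T F (snd s) (fst s) ⊆ W := by
  unfold V2
  rw [mem_sep, mem_prd]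

theorem V2_fst {s : M} (hs : s ∈ V2 X T F D W) : fst s ∈ D := by
  obtain ⟨⟨K, n, hK, -, rfl⟩, -⟩ := mem_V2.1 hs
  rwa [fst_op]

theorem V2_snd {s : M} (hs : s ∈ V2 X T F D W) : snd s ∈ om M := by
  obtain ⟨⟨K, n, -, hn, rfl⟩, -⟩ := mem_V2.1 hs
  rwa [snd_op]

theorem mem_Cd {s x : M} : x ∈ Cd X T F D s ↔ x ∈ D ∧ x ∈ Nb X T F (snd s) (fst s) ∧ x ≠ fst s :=
  mem_sep

include hT hH hB hP hD hfin hDP hdense hrQ hr hanti in
theorem E2_spec {s : M} (hs : s ∈ V2 X T F D W) :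
    E2 X T F D r s ∈ D ∧ E2 X T F D r s ∈ Nb X T F (snd s) (fst s) ∧ E2 X T F D r s ≠ fst s := by
  have hsub : Nb X T F (snd s) (fst s) ⊆ W := (mem_V2.1 hs).2
  have hx := V2_fst hs
  have hxP := hDP _ hx
  have hxX := hP.cld.1 _ hxP
  have hopen := Nb_open (x := fst s) hT hB (V2_snd hs)
  obtain ⟨y, hy, hyP, hne⟩ := hP.perf _ hopen (fst s) (self_mem_Nb hxX) hxP
  obtain ⟨U, V, hU, hV, hyU, hxV, hdis⟩ := hH y (fst s) (hT.sub _ hopen y hy) hxX hne
  obtain ⟨d, hd1, hd2⟩ := hdense _ (hT.inter _ _ hopen hU) y (mem_inter.2 ⟨hy, hyU⟩) hyP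
  rw [mem_inter] at hd2
  have hCd : ∃ x, x ∈ Cd X T F D s :=
    ⟨d, mem_Cd.2 ⟨hd1, hd2.1, by rintro rfl; exact hdis _ hd2.2 hxV⟩⟩
  obtain ⟨e, he, hmin⟩ := tp_min δ hD hfin hrQ hr (fun x hx => (mem_Cd.1 hx).1) hCd
  have hE : E2 X T F D r s = e := by
    refine the_eq ⟨he, hmin⟩ ?_
    rintro y ⟨hy1, hy2⟩
    have h1 := mem_Cd.1 he
    have h2 := mem_Cd.1 hy1
    exact hanti y e h2.1 h1.1 (hsub _ h2.2.1) (hsub _ h1.2.1) (hy2 e he) (hmin y hy1)
  rw [hE]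
  exact mem_Cd.1 he

include hT hH hB hP hD hfin hDP hdense hrQ hr hanti hC in
theorem L2_spec {s : M} (hs : s ∈ V2 X T F D W) :
    L2 X T F D r s ∈ om M ∧ Adm2 X T F D r s (L2 X T F D r s) := by
  obtain ⟨h1, h2, h3⟩ := E2_spec δ hT hH hB hP hD hfin hDP hdense hrQ hr hanti hs
  have hx := V2_fst hs
  have hxX := hP.cld.1 _ (hDP _ hx)
  have hopen := Nb_open (x := fst s) hT hB (V2_snd hs)
  have ev1 : Ev (fun m => snd s ∈ m) :=
    ⟨suc (snd s), suc_mem_om (V2_snd hs), fun m _ h => h _ (mem_suc_self _)⟩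
  have ev2 := ev_Nb_cl hT hB hH hC hopen (self_mem_Nb hxX)
  have ev3 := ev_Nb_cl hT hB hH hC hopen h2
  have ev4 := ev_Nb_disj hT hB hH hxX (hP.cld.1 _ (hDP _ h1)) h3.symm
  have := mu_spec (fun m => Adm2 X T F D r s m)
    ((ev1.and (ev2.and (ev3.and ev4))).mono fun m _ h => h).exists
  exact ⟨this.1, this.2.1⟩

theorem P2_pos {z k s : M} (h : k ∈ z) : P2 X T F D r z k s = E2 X T F D r s :=
  the_eq (Or.inl ⟨h, rfl⟩) (by
    rintro y (h' | h')
    · exact h'.2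
    · exact absurd h h'.1)

theorem P2_neg {z k s : M} (h : k ∉ z) : P2 X T F D r z k s = fst s :=
  the_eq (Or.inr ⟨h, rfl⟩) (by
    rintro y (h' | h')
    · exact absurd h'.1 h
    · exact h'.2)

include hT hH hB hP hD hfin hDP hdense hrQ hr hanti hC in
theorem N2_spec {z k s : M} (hs : s ∈ V2 X T F D W) :
    N2 X T F D r z k s ∈ V2 X T F D W ∧
    cl X T (Nb X T F (snd (N2 X T F D r z k s)) (fst (N2 X T F D r z k s))) ⊆
      Nb X T F (snd s) (fst s) := by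
  obtain ⟨h1, h2, h3⟩ := E2_spec δ hT hH hB hP hD hfin hDP hdense hrQ hr hanti hs
  obtain ⟨h4, h5⟩ := L2_spec δ hT hH hC hB hP hD hfin hDP hdense hrQ hr hanti hs
  have hsub : Nb X T F (snd s) (fst s) ⊆ W := (mem_V2.1 hs).2
  have key : P2 X T F D r z k s ∈ D ∧ cl X T (Nb X T F (L2 X T F D r s) (P2 X T F D r z k s)) ⊆
      Nb X T F (snd s) (fst s) := by
    by_cases hk : k ∈ z
    · rw [P2_pos hk]
      exact ⟨h1, h5.2.2.1⟩
    · rw [P2_neg hk]
      exact ⟨V2_fst hs, h5.2.1⟩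
  unfold N2
  rw [fst_op, snd_op]
  refine ⟨mem_V2.2 ⟨⟨_, _, key.1, h4, rfl⟩, ?_⟩, key.2⟩
  rw [fst_op, snd_op]
  exact sub_trans (sub_cl Nb_sub_X) (sub_trans key.2 hsub)

section seq

include hT hH hB hP hD hfin hDP hdense hrQ hr hanti hC hs0

theorem S2_mem {z k : M} (hk : k ∈ om M) : S2 X T F D r W s0 z k ∈ V2 X T F D W :=
  sq_mem (fun k s => N2 X T F D r z k s) hs0
    (fun _ _ _ hs => (N2_spec δ hT hH hC hB hP hD hfin hDP hdense hrQ hr hanti hs).1) hk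

theorem S2_zero {z : M} : S2 X T F D r W s0 z (emp M) = s0 :=
  sq_zero (fun k s => N2 X T F D r z k s) hs0
    (fun _ _ _ hs => (N2_spec δ hT hH hC hB hP hD hfin hDP hdense hrQ hr hanti hs).1)

theorem S2_suc {z k : M} (hk : k ∈ om M) :
    S2 X T F D r W s0 z (suc k) = N2 X T F D r z k (S2 X T F D r W s0 z k) :=
  sq_suc (fun k s => N2 X T F D r z k s) hs0
    (fun _ _ _ hs => (N2_spec δ hT hH hC hB hP hD hfin hDP hdense hrQ hr hanti hs).1) hk

theorem S2_cl {z k : M} (hk : k ∈ om M) :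
    cl X T (Nb X T F (snd (S2 X T F D r W s0 z (suc k))) (fst (S2 X T F D r W s0 z (suc k)))) ⊆
      Nb X T F (snd (S2 X T F D r W s0 z k)) (fst (S2 X T F D r W s0 z k)) := by
  rw [S2_suc δ hT hH hC hB hP hD hfin hDP hdense hrQ hr hanti hs0 hk]
  exact (N2_spec δ hT hH hC hB hP hD hfin hDP hdense hrQ hr hanti
    (S2_mem δ hT hH hC hB hP hD hfin hDP hdense hrQ hr hanti hs0 hk)).2

theorem S2_level {z k : M} (hk : k ∈ om M) : k ⊆ snd (S2 X T F D r W s0 z k) := by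
  refine om_ind (fun k : M => k ⊆ snd (S2 X T F D r W s0 z k))
    (fun x hx => absurd hx not_mem_emp) ?_ hk
  intro k hk ih x hx
  have h1 := (L2_spec δ hT hH hC hB hP hD hfin hDP hdense hrQ hr hanti
    (S2_mem (z := z) δ hT hH hC hB hP hD hfin hDP hdense hrQ hr hanti hs0 hk)).2.1
  have h2 : snd (S2 X T F D r W s0 z (suc k)) = L2 X T F D r (S2 X T F D r W s0 z k) := by
    rw [S2_suc δ hT hH hC hB hP hD hfin hDP hdense hrQ hr hanti hs0 hk]
    exact snd_op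
  have h3 := V2_snd (S2_mem (z := z) δ hT hH hC hB hP hD hfin hDP hdense hrQ hr hanti hs0
    (suc_mem_om hk))
  rw [h2] at h3 ⊢
  rcases mem_suc.1 hx with h | rfl
  · exact om_sub_of_mem h3 h1 x (ih x h)
  · exact om_mem_of_sub_mem h3 hk ih h1

theorem S2_decr {z i j : M} (hi : i ∈ om M) (hj : j ∈ om M) (hij : i ⊆ j) :
    Nb X T F (snd (S2 X T F D r W s0 z j)) (fst (S2 X T F D r W s0 z j)) ⊆
      Nb X T F (snd (S2 X T F D r W s0 z i)) (fst (S2 X T F D r W s0 z i)) := by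
  have key : i ⊆ j → Nb X T F (snd (S2 X T F D r W s0 z j)) (fst (S2 X T F D r W s0 z j)) ⊆
      Nb X T F (snd (S2 X T F D r W s0 z i)) (fst (S2 X T F D r W s0 z i)) := by
    refine om_ind (fun j : M => i ⊆ j →
      Nb X T F (snd (S2 X T F D r W s0 z j)) (fst (S2 X T F D r W s0 z j)) ⊆
      Nb X T F (snd (S2 X T F D r W s0 z i)) (fst (S2 X T F D r W s0 z i))) ?_ ?_ hj
    · intro h
      have : i = emp M := eq_emp fun x hx => not_mem_emp (h x hx)
      rw [this]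
      exact sub_refl _
    · intro j hj ih h
      by_cases hij : i ⊆ j
      · exact sub_trans (sub_cl Nb_sub_X) (sub_trans
          (S2_cl δ hT hH hC hB hP hD hfin hDP hdense hrQ hr hanti hs0 hj) (ih hij))
      · have : i = suc j := by
          refine sub_antisymm h ?_
          rcases om_le_or hi hj with h' | h'
          · exact absurd h' hij
          · exact suc_sub_of_mem hi h'
        rw [this]
        exact sub_refl _
  exact key hij

theorem S2_agree {z z' j : M} (hj : j ∈ om M) (h : ∀ i, i ∈ j → (i ∈ z ↔ i ∈ z')) :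
    S2 X T F D r W s0 z j = S2 X T F D r W s0 z' j := by
  have key : (∀ i, i ∈ j → (i ∈ z ↔ i ∈ z')) →
      S2 X T F D r W s0 z j = S2 X T F D r W s0 z' j := by
    refine om_ind (fun j : M => (∀ i, i ∈ j → (i ∈ z ↔ i ∈ z')) →
      S2 X T F D r W s0 z j = S2 X T F D r W s0 z' j) ?_ ?_ hj
    · intro _
      rw [S2_zero δ hT hH hC hB hP hD hfin hDP hdense hrQ hr hanti hs0,
        S2_zero δ hT hH hC hB hP hD hfin hDP hdense hrQ hr hanti hs0]
    · intro j hj ih h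
      rw [S2_suc δ hT hH hC hB hP hD hfin hDP hdense hrQ hr hanti hs0 hj,
        S2_suc δ hT hH hC hB hP hD hfin hDP hdense hrQ hr hanti hs0 hj,
        ih fun i hi => h i (mem_suc.2 (Or.inl hi))]
      unfold N2
      by_cases hjz : j ∈ z
      · rw [P2_pos hjz, P2_pos ((h j (mem_suc_self j)).1 hjz)]
      · rw [P2_neg hjz, P2_neg fun h' => hjz ((h j (mem_suc_self j)).2 h')]
  exact key h

theorem exists_point (z : M) : ∃ x, x ∈ X ∧ ∀ k, k ∈ om M →
    x ∈ Nb X T F (snd (S2 X T F D r W s0 z k)) (fst (S2 X T F D r W s0 z k)) := by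
  obtain ⟨x, hx, hall⟩ := cpt_decr hC
    (fun k => Nb X T F (snd (S2 X T F D r W s0 z k)) (fst (S2 X T F D r W s0 z k)))
    (fun k _ => Nb_sub_X)
    (fun k hk => ⟨fst (S2 X T F D r W s0 z k), self_mem_Nb (hP.cld.1 _ (hDP _ (V2_fst
      (S2_mem δ hT hH hC hB hP hD hfin hDP hdense hrQ hr hanti hs0 hk))))⟩)
    (fun i j hi hj hij => S2_decr δ hT hH hC hB hP hD hfin hDP hdense hrQ hr hanti hs0 hi hj hij)
  exact ⟨x, hx, fun k hk => S2_cl δ hT hH hC hB hP hD hfin hDP hdense hrQ hr hanti hs0 hk x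
    (hall _ (suc_mem_om hk))⟩

theorem point_unique {z x y : M} (hx : ∀ k, k ∈ om M →
    x ∈ Nb X T F (snd (S2 X T F D r W s0 z k)) (fst (S2 X T F D r W s0 z k)))
    (hy : ∀ k, k ∈ om M →
    y ∈ Nb X T F (snd (S2 X T F D r W s0 z k)) (fst (S2 X T F D r W s0 z k))) : x = y := by
  by_contra hne
  have hxX := Nb_sub_X x (hx _ zero_mem_om)
  have hyX := Nb_sub_X y (hy _ zero_mem_om)
  obtain ⟨k, hk, hev⟩ := ev_Nb_sep hT hB hH hC hxX hyX hne
  exact hev _ (V2_snd (S2_mem δ hT hH hC hB hP hD hfin hDP hdense hrQ hr hanti hs0 hk))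
    (S2_level δ hT hH hC hB hP hD hfin hDP hdense hrQ hr hanti hs0 hk) _ (hx k hk) (hy k hk)

theorem point_inj {z z' x : M} (hz : z ⊆ om M) (hz' : z' ⊆ om M) (hx : ∀ k, k ∈ om M →
    x ∈ Nb X T F (snd (S2 X T F D r W s0 z k)) (fst (S2 X T F D r W s0 z k)))
    (hy : ∀ k, k ∈ om M →
    x ∈ Nb X T F (snd (S2 X T F D r W s0 z' k)) (fst (S2 X T F D r W s0 z' k))) : z = z' := by
  by_contra hne
  have hex : ∃ k, k ∈ om M ∧ ¬ (k ∈ z ↔ k ∈ z') := by
    by_contra h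
    push Not at h
    refine hne (ext fun k => ?_)
    by_cases hk : k ∈ om M
    · have := h k hk
      tauto
    · exact ⟨fun h => absurd (hz k h) hk, fun h => absurd (hz' k h) hk⟩
  obtain ⟨k, hk, hkz, hmin⟩ := om_least (fun k => ¬ (k ∈ z ↔ k ∈ z')) hex
  have hag := S2_agree (z := z) (z' := z') δ hT hH hC hB hP hD hfin hDP hdense hrQ hr hanti hs0 hk
    (by
      intro i hi
      by_contra h
      exact om_irrefl hk (hmin i (om_mem_of_mem hk hi) h |> fun h' =>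
        absurd (h' i hi) (om_irrefl (om_mem_of_mem hk hi))))
  have h1 := hx (suc k) (suc_mem_om hk)
  have h2 := hy (suc k) (suc_mem_om hk)
  rw [S2_suc δ hT hH hC hB hP hD hfin hDP hdense hrQ hr hanti hs0 hk] at h1 h2
  rw [← hag] at h2
  have hadm := (L2_spec δ hT hH hC hB hP hD hfin hDP hdense hrQ hr hanti
    (S2_mem (z := z) δ hT hH hC hB hP hD hfin hDP hdense hrQ hr hanti hs0 hk)).2.2.2.2
  unfold N2 at h1 h2
  rw [fst_op, snd_op] at h1 h2
  by_cases h3 : k ∈ z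
  · have h4 : k ∉ z' := fun h => hkz ⟨fun _ => h, fun _ => h3⟩
    rw [P2_pos h3] at h1
    rw [P2_neg h4] at h2
    exact hadm x h2 h1
  · have h4 : k ∈ z' := by
      by_contra h
      exact hkz ⟨fun h' => absurd h' h3, fun h' => absurd h' h⟩
    rw [P2_neg h3] at h1
    rw [P2_pos h4] at h2
    exact hadm x h1 h2

theorem final_embedding : ∃ g : M,
    (∀ z, z ∈ pw (om M) → ∃ x, x ∈ X ∧ op z x ∈ g ∧ ∀ x', op z x' ∈ g → x' = x) ∧
    ∀ z z' x, z ∈ pw (om M) → z' ∈ pw (om M) → op z x ∈ g → op z' x ∈ g → z = z' := by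
  obtain ⟨g, hg⟩ : ∃ g : M, ∀ z x, op z x ∈ g ↔ (z ∈ pw (om M) ∧ x ∈ X) ∧ ∀ k, k ∈ om M →
        x ∈ Nb X T F (snd (S2 X T F D r W s0 z k)) (fst (S2 X T F D r W s0 z k)) := by
    refine ⟨sep (prd (pw (om M)) X) (fun p => ∀ z x, p = op z x → ∀ k, k ∈ om M →
        x ∈ Nb X T F (snd (S2 X T F D r W s0 z k)) (fst (S2 X T F D r W s0 z k))), ?_⟩
    intro z x
    rw [mem_sep, op_mem_prd]
    constructor
    · rintro ⟨h1, h2⟩
      exact ⟨h1, h2 z x rfl⟩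
    · rintro ⟨h1, h2⟩
      refine ⟨h1, fun z' x' h => ?_⟩
      obtain ⟨rfl, rfl⟩ := op_inj.1 h
      exact h2
  refine ⟨g, fun z hz => ?_, fun z z' x hz hz' h1 h2 => ?_⟩
  · obtain ⟨x, hx, hall⟩ :=
      exists_point δ hT hH hC hB hP hD hfin hDP hdense hrQ hr hanti hs0 z
    refine ⟨x, hx, (hg z x).2 ⟨⟨hz, hx⟩, hall⟩, fun x' hx' => ?_⟩
    exact point_unique δ hT hH hC hB hP hD hfin hDP hdense hrQ hr hanti hs0
      ((hg z x').1 hx').2 hall
  · exact point_inj δ hT hH hC hB hP hD hfin hDP hdense hrQ hr hanti hs0 (mem_pw.1 hz)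
      (mem_pw.1 hz') ((hg z x).1 h1).2 ((hg z' x).1 h2).2

end seq

end props

/-- non-scattered: some nonempty subset is dense in itself -/
def NonScat (X T : M) : Prop := ∃ S, S ⊆ X ∧ (∃ x, x ∈ S) ∧
  ∀ x, x ∈ S → ∀ U, U ∈ T → x ∈ U → ∃ y, y ∈ S ∧ y ∈ U ∧ y ≠ x

theorem perf_of_nonScat {X T : M} (hT : TopSp X T) (h : NonScat X T) : ∃ P, Perf X T P := by
  obtain ⟨S, hS, ⟨x₀, hx₀⟩, hdi⟩ := h
  refine ⟨cl X T S, cl_cld hT, ⟨x₀, sub_cl hS x₀ hx₀⟩, fun U hU x hxU hx => ?_⟩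
  obtain ⟨s, hs, hsS⟩ := (mem_cl.1 hx).2 U hU hxU
  by_cases h : s = x
  · subst h
    obtain ⟨y, hyS, hyU, hne⟩ := hdi s hsS U hU hxU
    exact ⟨y, hyU, sub_cl hS y hyS, hne⟩
  · exact ⟨s, hs, sub_cl hS s hsS, h⟩

/-- The main theorem, in internal form. -/
theorem main_internal {X T F f : M} (hT : TopSp X T) (hH : Haus X T) (hC : Cpt X T)
    (hB : CufBase T F) (hf : MCF X T f) (hS : NonScat X T) : ∃ g : M,
    (∀ z, z ∈ pw (om M) → ∃ x, x ∈ X ∧ op z x ∈ g ∧ ∀ x', op z x' ∈ g → x' = x) ∧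
    ∀ z z' x, z ∈ pw (om M) → z' ∈ pw (om M) → op z x ∈ g → op z' x ∈ g → z = z' := by
  obtain ⟨P, hP⟩ := perf_of_nonScat hT hS
  have hD : ∀ x, x ∈ DD X T F f P ↔ ∃ n, n ∈ om M ∧ x ∈ Dn X T F f P n := by
    intro x
    rw [mem_DD]
    constructor
    · exact fun h => h.2
    · rintro ⟨n, hn, hx⟩
      exact ⟨(mem_Dn.1 hx).1, n, hn, hx⟩
  have hfin : ∀ n, n ∈ om M → FinK (Dn X T F f P n) := fun n hn => fink_Dn hT hB hP hf hn
  have hDP := DD_sub_P (F := F) hT hP hf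
  obtain ⟨x₀, hx₀⟩ := hP.ne
  obtain ⟨d0, hd0, -⟩ := DD_dense hT hB hP hf hH hC hT.univ (hP.cld.1 x₀ hx₀) hx₀
  obtain ⟨r, hrQ, hr, hfix⟩ := bourbaki_witt (Q0 (DD X T F f P) (fun n => Dn X T F f P n))
    (fun r => ref r (As X T F f P (DD X T F f P) d0 r)) (fun a _ => ref_sub)
    (fun r => TP (DD X T F f P) r)
    (TP_Q0 _ fun m n _ _ h => Dn_mono h)
    (fun a _ ha => TP_ref ha)
    (fun S hne h hch => TP_sI hne (fun a ha => (h a ha).2) hch)
  obtain ⟨s, hs, ⟨x, hx⟩, hG⟩ := dead_end (fun n => Dn X T F f P n) hT hH hC hB hP hf hD hfin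
    hDP hd0 hrQ hr hfix
  have hs1 := Vs_fst hs
  have hs2 := Vs_snd hs
  refine final_embedding (r := r) (D := DD X T F f P) (W := Nb X T F (snd s) x)
    (s0 := op x (snd s)) (fun n => Dn X T F f P n) hT hH hC hB hP hD hfin hDP
    (fun U hU x hx hxP => DD_dense hT hB hP hf hH hC hU hx hxP) hrQ hr ?_ ?_
  · intro d d' hd hd' hdW hdW' h1 h2
    by_contra hne
    exact hG d (mem_Gs.2 ⟨hd, d', hd', fun h => hne h.symm, h1, h2, x, hx, hdW, hdW'⟩)
  · refine mem_V2.2 ⟨⟨x, snd s, hs1 x hx, hs2, rfl⟩, ?_⟩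
    rw [fst_op, snd_op]
    exact sub_refl _

end Pool.Agent.Work.MP_bce22b_lc
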