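import Pool.Agent.Work.MP_bce22b_lc.Top

/-!
Canonical neighbourhoods from a cuf base, and the canonical dense cuf subset of a perfect set.
-/

namespace Pool.Agent.Work.MP_bce22b_lc

universe u

variable {M : Type u} [SetStr M] {Γ : Type u} [Ctx M Γ]

/-- members of the base listed before stage `m` -/
noncomputable def Bm (T F m : M) : M := sep T (fun V => ∃ k, k ∈ om M ∧ k ⊆ m ∧ V ∈ ap F k)

instance df_Bm {A B C : Γ → M} [DF A] [DF B] [DF C] : DF (fun γ => Bm (A γ) (B γ) (C γ)) := by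
  unfold Bm
  infer_instance

/-- canonical neighbourhoods -/
noncomputable def Nb (X T F m x : M) : M :=
  sep X (fun y => ∀ V, V ∈ Bm T F m → (x ∈ V → y ∈ V) ∧ (x ∉ cl X T V → y ∉ cl X T V))

instance df_Nb {A B C D E : Γ → M} [DF A] [DF B] [DF C] [DF D] [DF E] :
    DF (fun γ => Nb (A γ) (B γ) (C γ) (D γ) (E γ)) := by
  unfold Nb
  infer_instance

variable [ZFM M]

/-- `F` enumerates a base in finite chunks -/
structure CufBase (T F : M) : Prop where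
  fin : ∀ n, n ∈ om M → FinK (ap F n)
  sub : ∀ n, n ∈ om M → ap F n ⊆ T
  base : ∀ U, U ∈ T → ∀ x, x ∈ U → ∃ n, n ∈ om M ∧ ∃ V, V ∈ ap F n ∧ x ∈ V ∧ V ⊆ U

theorem mem_Bm {T F m V : M} : V ∈ Bm T F m ↔ V ∈ T ∧ ∃ k, k ∈ om M ∧ k ⊆ m ∧ V ∈ ap F k :=
  mem_sep

theorem mem_Nb {X T F m x y : M} : y ∈ Nb X T F m x ↔
    y ∈ X ∧ ∀ V, V ∈ Bm T F m → (x ∈ V → y ∈ V) ∧ (x ∉ cl X T V → y ∉ cl X T V) :=
  mem_sep

theorem fink_om {n : M} (hn : n ∈ om M) : FinK n :=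
  om_ind (fun n : M => FinK n) fink_emp (fun _ _ ih => fink_ins ih) hn

theorem mem_suc_of_sub {k m : M} (hk : k ∈ om M) (hm : m ∈ om M) (h : k ⊆ m) : k ∈ suc m := by
  rcases om_tri hk hm with h1 | rfl | h1
  · exact mem_suc.2 (Or.inl h1)
  · exact mem_suc_self _
  · exact absurd (h m h1) (om_irrefl hm)

section

variable {X T F : M} (hT : TopSp X T) (hB : CufBase T F)

include hB in
theorem fink_Bm {m : M} (hm : m ∈ om M) : FinK (Bm T F m) := by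
  have h1 : FinK (sep T (fun V => ∃ k, k ∈ suc m ∧ V ∈ ap F k)) :=
    fink_family (fun k V => V ∈ ap F k) (fink_om (suc_mem_om hm)) fun k hk =>
      fink_sub (hB.fin k (om_mem_of_mem (suc_mem_om hm) hk)) fun V hV => (mem_sep.1 hV).2
  refine fink_sub h1 fun V hV => ?_
  obtain ⟨hVT, k, hk, hkm, hVk⟩ := mem_Bm.1 hV
  exact mem_sep.2 ⟨hVT, k, mem_suc_of_sub hk hm hkm, hVk⟩

theorem Nb_sub_X {m x : M} : Nb X T F m x ⊆ X := fun y hy => (mem_Nb.1 hy).1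

theorem self_mem_Nb {m x : M} (hx : x ∈ X) : x ∈ Nb X T F m x :=
  mem_Nb.2 ⟨hx, fun _ _ => ⟨id, id⟩⟩

theorem Nb_mono {m m' x : M} (h : m ⊆ m') : Nb X T F m' x ⊆ Nb X T F m x := fun y hy => by
  rw [mem_Nb] at hy ⊢
  refine ⟨hy.1, fun V hV => hy.2 V ?_⟩
  obtain ⟨hVT, k, hk, hkm, hVk⟩ := mem_Bm.1 hV
  exact mem_Bm.2 ⟨hVT, k, hk, sub_trans hkm h, hVk⟩

include hT hB

theorem Nb_open {m x : M} (hm : m ∈ om M) : Nb X T F m x ∈ T := by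
  refine top_of_nhds hT Nb_sub_X fun y hy => ?_
  rw [mem_Nb] at hy
  obtain ⟨U, hU, hyU, hall⟩ := nhd_all_fin hT
    (fun V U => ∀ z, z ∈ U → (x ∈ V → z ∈ V) ∧ (x ∉ cl X T V → z ∉ cl X T V))
    (fink_Bm hB hm) hy.1 (fun W U V h hsub z hz => h z (hsub z hz)) (by
      intro V hV
      have hVT := (mem_Bm.1 hV).1
      by_cases hxV : x ∈ V
      · refine ⟨V, hVT, (hy.2 V hV).1 hxV, fun z hz => ⟨fun _ => hz, fun h => ?_⟩⟩
        exact absurd (sub_cl (hT.sub V hVT) x hxV) h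
      · by_cases hxc : x ∈ cl X T V
        · exact ⟨X, hT.univ, hy.1, fun z _ => ⟨fun h => absurd h hxV, fun h => absurd hxc h⟩⟩
        · obtain ⟨U, hU, hyU, hd⟩ := not_mem_cl hy.1 ((hy.2 V hV).2 hxc)
          refine ⟨U, hU, hyU, fun z hz => ⟨fun h => absurd h hxV, fun _ hzc => ?_⟩⟩
          obtain ⟨t, ht, htV⟩ := (mem_cl.1 hzc).2 U hU hz
          exact hd t ht htV)
  refine ⟨U, hU, hyU, fun z hz => mem_Nb.2 ⟨hT.sub U hU z hz, fun V hV => hall V hV z hz⟩⟩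

omit hT in
theorem Nb_sub_base {m k x V : M} (hk : k ∈ om M) (hkm : k ⊆ m) (hV : V ∈ ap F k)
    (hx : x ∈ V) : Nb X T F m x ⊆ V := fun _ hy =>
  ((mem_Nb.1 hy).2 V (mem_Bm.2 ⟨hB.sub k hk V hV, k, hk, hkm, hV⟩)).1 hx

theorem ev_Nb_cl (hH : Haus X T) (hC : Cpt X T) {x U : M} (hU : U ∈ T) (hx : x ∈ U) :
    Ev (fun m => cl X T (Nb X T F m x) ⊆ U) := by
  obtain ⟨V, hV, hxV, hVU⟩ := regular hT hH hC hU hx
  obtain ⟨n, hn, W, hW, hxW, hWV⟩ := hB.base V hV x hxV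
  exact ⟨n, hn, fun m _ hnm => sub_trans (cl_mono (sub_trans (Nb_sub_base hB hn hnm hW hxW) hWV)) hVU⟩

theorem ev_Nb_disj (hH : Haus X T) {x y : M} (hx : x ∈ X) (hy : y ∈ X) (hxy : x ≠ y) :
    Ev (fun m => ∀ z, z ∈ Nb X T F m x → z ∉ Nb X T F m y) := by
  obtain ⟨U, V, hU, hV, hxU, hyV, hd⟩ := hH x y hx hy hxy
  obtain ⟨n, hn, W, hW, hxW, hWU⟩ := hB.base U hU x hxU
  obtain ⟨n', hn', W', hW', hyW', hWV⟩ := hB.base V hV y hyV
  refine (Ev.and (P := fun m => n ⊆ m) (Q := fun m => n' ⊆ m) ⟨n, hn, fun m _ h => h⟩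
    ⟨n', hn', fun m _ h => h⟩).mono fun m _ hmm z hz hz' => ?_
  exact hd z (hWU z (Nb_sub_base hB hn hmm.1 hW hxW z hz))
    (hWV z (Nb_sub_base hB hn' hmm.2 hW' hyW' z hz'))

theorem ev_Nb_sep (hH : Haus X T) (hC : Cpt X T) {x y : M} (hx : x ∈ X) (hy : y ∈ X)
    (hxy : x ≠ y) : Ev (fun m => ∀ d, x ∈ Nb X T F m d → y ∉ Nb X T F m d) := by
  obtain ⟨U, V, hU, hV, hxU, hyV, hd⟩ := hH x y hx hy hxy
  obtain ⟨n, hn, W, hW, hxW, hWU⟩ := hB.base U hU x hxU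
  obtain ⟨W₂, hW₂, hxW₂, hcl⟩ := regular hT hH hC (hB.sub n hn W hW) hxW
  obtain ⟨n', hn', W', hW', hxW', hWV⟩ := hB.base W₂ hW₂ x hxW₂
  refine (Ev.and (P := fun m => n ⊆ m) (Q := fun m => n' ⊆ m) ⟨n, hn, fun m _ h => h⟩
    ⟨n', hn', fun m _ h => h⟩).mono fun m _ hmm d hxd hyd => ?_
  have hyW : y ∉ W := fun h => hd y (hWU y h) hyV
  by_cases hdW : d ∈ W
  · exact hyW (Nb_sub_base hB hn hmm.1 hW hdW y hyd)
  · have hdc : d ∉ cl X T W' := fun h => hdW (hcl d (cl_mono hWV d h))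
    have := ((mem_Nb.1 hxd).2 W' (mem_Bm.2 ⟨hB.sub n' hn' W' hW', n', hn', hmm.2, hW'⟩)).2 hdc
    exact this (sub_cl (hT.sub W' (hB.sub n' hn' W' hW')) x hxW')

end

/-- nonempty perfect closed sets -/
structure Perf (X T P : M) : Prop where
  cld : Cld X T P
  ne : ∃ x, x ∈ P
  perf : ∀ U, U ∈ T → ∀ x, x ∈ U → x ∈ P → ∃ y, y ∈ U ∧ y ∈ P ∧ y ≠ x

/-- multiple choice function for closed sets -/
def MCF (X T f : M) : Prop := ∀ C, Cld X T C → (∃ x, x ∈ C) →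
  FinK (ap f C) ∧ ap f C ⊆ C ∧ ∃ x, x ∈ ap f C

/-- the `n`-th finite piece of the dense set -/
noncomputable def Dn (X T F f P n : M) : M :=
  sep X (fun x => ∃ V, V ∈ Bm T F n ∧ (∃ z, z ∈ V ∧ z ∈ P) ∧ x ∈ ap f (cl X T (inter V P)))

omit [ZFM M] in
instance df_Dn {A B C D E G : Γ → M} [DF A] [DF B] [DF C] [DF D] [DF E] [DF G] :
    DF (fun γ => Dn (A γ) (B γ) (C γ) (D γ) (E γ) (G γ)) := by
  unfold Dn
  infer_instance

/-- the canonical dense set -/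
noncomputable def DD (X T F f P : M) : M := sep X (fun x => ∃ n, n ∈ om M ∧ x ∈ Dn X T F f P n)

theorem mem_Dn {X T F f P n x : M} : x ∈ Dn X T F f P n ↔ x ∈ X ∧
    ∃ V, V ∈ Bm T F n ∧ (∃ z, z ∈ V ∧ z ∈ P) ∧ x ∈ ap f (cl X T (inter V P)) := mem_sep

theorem mem_DD {X T F f P x : M} : x ∈ DD X T F f P ↔
    x ∈ X ∧ ∃ n, n ∈ om M ∧ x ∈ Dn X T F f P n := mem_sep

section

variable {X T F f P : M} (hT : TopSp X T) (hB : CufBase T F) (hP : Perf X T P)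
  (hf : MCF X T f)

include hT hP hf in
theorem mcf_aux {V : M} (hV : ∃ z, z ∈ V ∧ z ∈ P) :
    FinK (ap f (cl X T (inter V P))) ∧ ap f (cl X T (inter V P)) ⊆ cl X T (inter V P) ∧
      ∃ x, x ∈ ap f (cl X T (inter V P)) := by
  obtain ⟨z, hz, hzP⟩ := hV
  exact hf _ (cl_cld hT) ⟨z, sub_cl (fun y hy => hP.cld.1 y (mem_inter.1 hy).2) z
    (mem_inter.2 ⟨hz, hzP⟩)⟩

include hT hB hP hf in
theorem fink_Dn {n : M} (hn : n ∈ om M) : FinK (Dn X T F f P n) := by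
  refine fink_sub (fink_family (a := Bm T F n) (V := X)
    (fun V x => (∃ z, z ∈ V ∧ z ∈ P) ∧ x ∈ ap f (cl X T (inter V P))) (fink_Bm hB hn) ?_) ?_
  · intro V _
    by_cases h : ∃ z, z ∈ V ∧ z ∈ P
    · exact fink_sub (mcf_aux hT hP hf h).1 fun x hx => (mem_sep.1 hx).2.2
    · have : sep X (fun y => (∃ z, z ∈ V ∧ z ∈ P) ∧ y ∈ ap f (cl X T (inter V P))) = emp M :=
        eq_emp fun x hx => h (mem_sep.1 hx).2.1
      rw [this]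
      exact fink_emp
  · intro x hx
    exact mem_sep.2 (mem_Dn.1 hx)

theorem Dn_mono {m n : M} (h : m ⊆ n) : Dn X T F f P m ⊆ Dn X T F f P n := fun x hx => by
  rw [mem_Dn] at hx ⊢
  obtain ⟨hx, V, hV, h'⟩ := hx
  refine ⟨hx, V, ?_, h'⟩
  obtain ⟨hVT, k, hk, hkm, hVk⟩ := mem_Bm.1 hV
  exact mem_Bm.2 ⟨hVT, k, hk, sub_trans hkm h, hVk⟩

include hT hP hf in
theorem DD_sub_P : DD X T F f P ⊆ P := fun x hx => by
  obtain ⟨_, n, _, hx⟩ := mem_DD.1 hx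
  obtain ⟨_, V, _, hz, hx⟩ := mem_Dn.1 hx
  exact cl_sub_of_cld hP.cld (fun y hy => (mem_inter.1 hy).2) x ((mcf_aux hT hP hf hz).2.1 x hx)

include hT hB hP hf in
theorem DD_dense (hH : Haus X T) (hC : Cpt X T) {U x : M} (hU : U ∈ T) (hx : x ∈ U)
    (hxP : x ∈ P) : ∃ d, d ∈ DD X T F f P ∧ d ∈ U := by
  obtain ⟨V, hV, hxV, hVU⟩ := regular hT hH hC hU hx
  obtain ⟨n, hn, W, hW, hxW, hWV⟩ := hB.base V hV x hxV
  obtain ⟨-, h1, d, hd⟩ := mcf_aux hT hP hf ⟨x, hxW, hxP⟩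
  have hdc := h1 d hd
  refine ⟨d, mem_DD.2 ⟨(mem_cl.1 hdc).1, n, hn, mem_Dn.2 ⟨(mem_cl.1 hdc).1, W,
    mem_Bm.2 ⟨hB.sub n hn W hW, n, hn, sub_refl n, hW⟩, ⟨x, hxW, hxP⟩, hd⟩⟩, ?_⟩
  exact hVU d (cl_mono (fun y hy => hWV y (mem_inter.1 hy).1) d hdc)

end

end Pool.Agent.Work.MP_bce22b_lc
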