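import Pool.Agent.Work.MP_bce22b_lc.Sets

/-!
Natural numbers, finite sets and recursion inside a model, without choice.
-/

namespace Pool.Agent.Work.MP_bce22b_lc

universe u

variable {M : Type u} [SetStr M] {Γ : Type u} [Ctx M Γ]

/-- successor -/
noncomputable def suc (n : M) : M := ins n n

instance df_suc {F : Γ → M} [hF : DF F] : DF (fun γ => suc (F γ)) := by
  unfold suc
  infer_instance

/-- inductive sets -/
def Ind (v : M) : Prop := emp M ∈ v ∧ ∀ n, n ∈ v → suc n ∈ v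

instance dp_Ind {F : Γ → M} [hF : DF F] : DP M (fun γ => Ind (F γ)) := by
  unfold Ind
  infer_instance

/-- omega -/
noncomputable def om (M : Type u) [SetStr M] : M := the (fun w : M => ∀ n : M, n ∈ w ↔ ∀ v : M, Ind v → n ∈ v)

variable [ZFM M]

theorem mem_suc {n x : M} : x ∈ suc n ↔ x ∈ n ∨ x = n := mem_ins

theorem exists_ind (M : Type u) [SetStr M] [ZFM M] : ∃ w : M, Ind w := by
  obtain ⟨w, ⟨z, hz, hz'⟩, h⟩ := ZFM.infinity (M := M)
  refine ⟨w, ?_, fun n hn => ?_⟩
  · rwa [← eq_emp hz']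
  · obtain ⟨s, hs, hs'⟩ := h n hn
    have : suc n = s := ext fun x => mem_suc.trans (hs' x).symm
    rwa [this]

theorem mem_om {n : M} : n ∈ om M ↔ ∀ v : M, Ind v → n ∈ v := by
  obtain ⟨w, hw⟩ := exists_ind M
  refine mem_the (P := fun n : M => ∀ v : M, Ind v → n ∈ v)
    ⟨sep w (fun n : M => ∀ v : M, Ind v → n ∈ v), ?_⟩ n
  intro x
  rw [mem_sep]
  exact ⟨fun h => h.2, fun h => ⟨h w hw, h⟩⟩

theorem zero_mem_om : emp M ∈ om M := mem_om.2 fun _ hv => hv.1

theorem suc_mem_om {n : M} (hn : n ∈ om M) : suc n ∈ om M :=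
  mem_om.2 fun v hv => hv.2 n (mem_om.1 hn v hv)

theorem om_ind (P : M → Prop) [DP1 P] (h0 : P (emp M)) (hs : ∀ n, n ∈ om M → P n → P (suc n))
    {n : M} (hn : n ∈ om M) : P n := by
  have := mem_om.1 hn (sep (om M) P) ⟨mem_sep.2 ⟨zero_mem_om, h0⟩, fun n hn => by
    rw [mem_sep] at hn ⊢
    exact ⟨suc_mem_om hn.1, hs n hn.1 hn.2⟩⟩
  exact (mem_sep.1 this).2

theorem om_trans_aux {n : M} (hn : n ∈ om M) : (∀ m, m ∈ n → m ⊆ n) ∧ n ⊆ om M := by
  refine om_ind (fun n : M => (∀ m, m ∈ n → m ⊆ n) ∧ n ⊆ om M) ?_ ?_ hn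
  · exact ⟨fun m hm => absurd hm not_mem_emp, fun m hm => absurd hm not_mem_emp⟩
  · intro n hn ih
    refine ⟨fun m hm => ?_, fun m hm => ?_⟩
    · rcases mem_suc.1 hm with h | rfl
      · exact sub_trans (ih.1 m h) fun x hx => mem_suc.2 (Or.inl hx)
      · exact fun x hx => mem_suc.2 (Or.inl hx)
    · rcases mem_suc.1 hm with h | rfl
      · exact ih.2 m h
      · exact hn

theorem om_sub_of_mem {n m : M} (hn : n ∈ om M) (hm : m ∈ n) : m ⊆ n := (om_trans_aux hn).1 m hm

theorem om_mem_of_mem {n m : M} (hn : n ∈ om M) (hm : m ∈ n) : m ∈ om M := (om_trans_aux hn).2 m hm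

theorem om_irrefl {n : M} (hn : n ∈ om M) : n ∉ n := by
  refine om_ind (fun n : M => n ∉ n) not_mem_emp ?_ hn
  intro n hn ih h
  rcases mem_suc.1 h with h | h
  · exact ih (om_sub_of_mem hn h n (mem_suc.2 (Or.inr rfl)))
  · have h1 : n ∈ suc n := mem_suc.2 (Or.inr rfl)
    rw [h] at h1
    exact ih h1

theorem om_zero_or {n : M} (hn : n ∈ om M) : n = emp M ∨ emp M ∈ n := by
  refine om_ind (fun n : M => n = emp M ∨ emp M ∈ n) (Or.inl rfl) ?_ hn
  intro n _ ih
  rcases ih with rfl | h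
  · exact Or.inr (mem_suc.2 (Or.inr rfl))
  · exact Or.inr (mem_suc.2 (Or.inl h))

theorem om_suc_le {n m : M} (hn : n ∈ om M) (hm : m ∈ om M) : n ∈ m → suc n = m ∨ suc n ∈ m := by
  refine om_ind (fun m : M => n ∈ m → suc n = m ∨ suc n ∈ m)
    (fun h => absurd h not_mem_emp) ?_ hm
  intro m _ ih h
  rcases mem_suc.1 h with h | rfl
  · rcases ih h with rfl | h'
    · exact Or.inr (mem_suc.2 (Or.inr rfl))
    · exact Or.inr (mem_suc.2 (Or.inl h'))
  · exact Or.inl rfl

theorem om_tri {n m : M} (hn : n ∈ om M) (hm : m ∈ om M) : n ∈ m ∨ n = m ∨ m ∈ n := by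
  have : ∀ m, m ∈ om M → n ∈ m ∨ n = m ∨ m ∈ n := by
    refine om_ind (fun n : M => ∀ m, m ∈ om M → n ∈ m ∨ n = m ∨ m ∈ n) ?_ ?_ hn
    · intro m hm
      rcases om_zero_or hm with rfl | h
      · exact Or.inr (Or.inl rfl)
      · exact Or.inl h
    · intro n hn ih m hm
      rcases ih m hm with h | rfl | h
      · rcases om_suc_le hn hm h with h | h
        · exact Or.inr (Or.inl h)
        · exact Or.inl h
      · exact Or.inr (Or.inr (mem_suc.2 (Or.inr rfl)))
      · exact Or.inr (Or.inr (mem_suc.2 (Or.inl h)))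
  exact this m hm

theorem om_le_or {n m : M} (hn : n ∈ om M) (hm : m ∈ om M) : n ⊆ m ∨ m ∈ n := by
  rcases om_tri hn hm with h | rfl | h
  · exact Or.inl (om_sub_of_mem hm h)
  · exact Or.inl (sub_refl _)
  · exact Or.inr h

theorem om_mem_of_sub_mem {n m k : M} (hk : k ∈ om M) (hn : n ∈ om M)
    (h : n ⊆ m) (h' : m ∈ k) : n ∈ k := by
  rcases om_tri hn hk with h1 | rfl | h1
  · exact h1
  · exact absurd (h m h') (om_irrefl (om_mem_of_mem hn h'))
  · have := h _ h1
    exact absurd (om_sub_of_mem hk h' _ this) (om_irrefl hk)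

theorem om_le_total {n m : M} (hn : n ∈ om M) (hm : m ∈ om M) : n ⊆ m ∨ m ⊆ n := by
  rcases om_le_or hn hm with h | h
  · exact Or.inl h
  · exact Or.inr (om_sub_of_mem hn h)

theorem sub_suc (n : M) : n ⊆ suc n := fun _ hx => mem_suc.2 (Or.inl hx)

theorem mem_suc_self (n : M) : n ∈ suc n := mem_suc.2 (Or.inr rfl)

theorem suc_sub_of_mem {n m : M} (hm : m ∈ om M) (h : n ∈ m) : suc n ⊆ m := by
  intro x hx
  rcases mem_suc.1 hx with h' | rfl
  · exact om_sub_of_mem hm h x h'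
  · exact h

theorem suc_inj {n m : M} (hn : n ∈ om M) (hm : m ∈ om M) (h : suc n = suc m) : n = m := by
  have h1 : n ∈ suc m := h ▸ mem_suc_self n
  have h2 : m ∈ suc n := h ▸ mem_suc_self m
  rcases mem_suc.1 h1 with h1 | h1
  · rcases mem_suc.1 h2 with h2 | h2
    · exact absurd (om_sub_of_mem hm h1 m h2) (om_irrefl hm)
    · exact h2.symm
  · exact h1

theorem suc_ne_zero (n : M) : suc n ≠ emp M := by
  intro h
  exact not_mem_emp (h ▸ mem_suc_self n)

/-- least number principle -/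
theorem om_least (P : M → Prop) [DP1 P] (h : ∃ n, n ∈ om M ∧ P n) :
    ∃ n, n ∈ om M ∧ P n ∧ ∀ k, k ∈ om M → P k → n ⊆ k := by
  have hP := fun {Γ : Type u} [Ctx M Γ] (F : Γ → M) [DF F] => DP1.app P (F := F)
  by_contra hc
  have key : ∀ n, n ∈ om M → ∀ k, k ∈ n → ¬ P k := by
    intro n hn
    refine om_ind (fun n : M => ∀ k, k ∈ n → ¬ P k) (fun k hk => absurd hk not_mem_emp) ?_ hn
    intro n hn ih k hk hPk
    rcases mem_suc.1 hk with h | rfl
    · exact ih k h hPk
    · refine hc ⟨k, hn, hPk, fun j hj hPj => ?_⟩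
      rcases om_le_or hn hj with h | h
      · exact h
      · exact absurd hPj (ih j h)
  obtain ⟨n, hn, hPn⟩ := h
  exact key (suc n) (suc_mem_om hn) n (mem_suc_self n) hPn

/-- the least natural number with a given property -/
noncomputable def mu (P : M → Prop) : M :=
  the (fun n => n ∈ om M ∧ P n ∧ ∀ k, k ∈ om M → P k → n ⊆ k)

omit [ZFM M] in
instance df_mu {P : Γ → M → Prop} [h : DP M (fun w : Γ × M => P w.1 w.2)] :
    DF (fun γ => mu (P γ)) := by
  have h1 : DP M (fun w : (Γ × M) × M => P w.1.1 w.2) := DP.weaken1 h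
  unfold mu
  infer_instance

theorem mu_spec (P : M → Prop) [DP1 P] (h : ∃ n, n ∈ om M ∧ P n) :
    mu P ∈ om M ∧ P (mu P) ∧ ∀ k, k ∈ om M → P k → mu P ⊆ k := by
  obtain ⟨n, hn, hPn, hn'⟩ := om_least P h
  exact the_spec (P := fun n => n ∈ om M ∧ P n ∧ ∀ k, k ∈ om M → P k → n ⊆ k)
    ⟨n, ⟨hn, hPn, hn'⟩, fun y hy => sub_antisymm (hy.2.2 n hn hPn) (hn' y hy.1 hy.2.1)⟩

/-- `P` holds for all sufficiently large natural numbers -/
def Ev (P : M → Prop) : Prop := ∃ n, n ∈ om M ∧ ∀ m, m ∈ om M → n ⊆ m → P m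

omit [ZFM M] in
instance dp_Ev {P : Γ → M → Prop} [h : DP M (fun w : Γ × M => P w.1 w.2)] :
    DP M (fun γ => Ev (P γ)) := by
  have h1 : DP M (fun w : (Γ × M) × M => P w.1.1 w.2) := DP.weaken1 h
  unfold Ev
  infer_instance

omit [ZFM M] in
theorem Ev.mono {P Q : M → Prop} (h : Ev P) (h' : ∀ m, m ∈ om M → P m → Q m) : Ev Q := by
  obtain ⟨n, hn, h⟩ := h
  exact ⟨n, hn, fun m hm hnm => h' m hm (h m hm hnm)⟩

theorem Ev.and {P Q : M → Prop} (h : Ev P) (h' : Ev Q) : Ev (fun m => P m ∧ Q m) := by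
  obtain ⟨n, hn, h⟩ := h
  obtain ⟨n', hn', h'⟩ := h'
  rcases om_le_total hn hn' with hle | hle
  · exact ⟨n', hn', fun m hm hnm => ⟨h m hm (sub_trans hle hnm), h' m hm hnm⟩⟩
  · exact ⟨n, hn, fun m hm hnm => ⟨h m hm hnm, h' m hm (sub_trans hle hnm)⟩⟩

theorem Ev.exists {P : M → Prop} (h : Ev P) : ∃ n, n ∈ om M ∧ P n := by
  obtain ⟨n, hn, h⟩ := h
  exact ⟨n, hn, h n hn (sub_refl n)⟩

theorem Ev.exists_ge {P : M → Prop} (h : Ev P) {k : M} (hk : k ∈ om M) :
    ∃ n, n ∈ om M ∧ k ⊆ n ∧ P n := by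
  obtain ⟨n, hn, h⟩ := h
  rcases om_le_total hn hk with hle | hle
  · exact ⟨k, hk, sub_refl k, h k hk hle⟩
  · exact ⟨n, hn, hle, h n hn (sub_refl n)⟩

theorem Ev.of_forall {P : M → Prop} (h : ∀ m, m ∈ om M → P m) : Ev P :=
  ⟨emp M, zero_mem_om, fun m hm _ => h m hm⟩

/-! ### finite sets -/

/-- Kuratowski finiteness -/
def FinK (a : M) : Prop :=
  ∀ K : M, emp M ∈ K → (∀ x, x ∈ K → ∀ y, y ∈ a → ins y x ∈ K) → a ∈ K

omit [ZFM M] in
instance dp_FinK {F : Γ → M} [hF : DF F] : DP M (fun γ => FinK (F γ)) := by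
  unfold FinK
  infer_instance

theorem fink_ind (P : M → Prop) [DP1 P] {a : M} (ha : FinK a) (h0 : P (emp M))
    (hs : ∀ x y, x ⊆ a → y ∈ a → P x → P (ins y x)) : P a := by
  have := ha (sep (pw a) P) (mem_sep.2 ⟨mem_pw.2 fun x hx => absurd hx not_mem_emp, h0⟩) (by
    intro x hx y hy
    rw [mem_sep, mem_pw] at hx
    rw [mem_sep, mem_pw]
    refine ⟨fun z hz => ?_, hs x y hx.1 hy hx.2⟩
    rcases mem_ins.1 hz with h | rfl
    · exact hx.1 z h
    · exact hy)
  exact (mem_sep.1 this).2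

omit [ZFM M] in
theorem fink_emp : FinK (emp M) := fun _ h0 _ => h0

theorem fink_ins {x y : M} (h : FinK x) : FinK (ins y x) := by
  intro K h0 hs
  have : x ∈ K := h K h0 fun x hx z hz => hs x hx z (mem_ins.2 (Or.inl hz))
  exact hs x this y (mem_ins.2 (Or.inr rfl))

theorem fink_un {a b : M} (ha : FinK a) (hb : FinK b) : FinK (un a b) := by
  refine fink_ind (fun x : M => FinK (un x b)) ha ?_ ?_
  · have : un (emp M) b = b := ext fun x => by
      rw [mem_un]
      exact ⟨fun h => h.resolve_left not_mem_emp, Or.inr⟩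
    rwa [this]
  · intro x y _ _ ih
    have : un (ins y x) b = ins y (un x b) := ext fun z => by
      rw [mem_un, mem_ins, mem_ins, mem_un]
      tauto
    rw [this]
    exact fink_ins ih

theorem fink_sub {a b : M} (ha : FinK a) (hb : b ⊆ a) : FinK b := by
  have : ∀ b, b ⊆ a → FinK b := by
    refine fink_ind (fun x : M => ∀ b, b ⊆ x → FinK b) ha ?_ ?_
    · intro b hb
      have : b = emp M := eq_emp fun x hx => not_mem_emp (hb x hx)
      rw [this]
      exact fink_emp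
    · intro x y _ _ ih b hb
      have h1 : FinK (sep b (fun z => z ∈ x)) := ih _ fun z hz => (mem_sep.1 hz).2
      by_cases hy : y ∈ b
      · have : b = ins y (sep b (fun z => z ∈ x)) := ext fun z => by
          rw [mem_ins, mem_sep]
          constructor
          · intro hz
            rcases mem_ins.1 (hb z hz) with h | h
            · exact Or.inl ⟨hz, h⟩
            · exact Or.inr h
          · rintro (h | rfl)
            · exact h.1
            · exact hy
        rw [this]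
        exact fink_ins h1
      · exact ih b fun z hz => by
          rcases mem_ins.1 (hb z hz) with h | rfl
          · exact h
          · exact absurd hz hy
  exact this b hb

theorem fink_sU {a : M} (ha : FinK a) (h : ∀ x, x ∈ a → FinK x) : FinK (sU a) := by
  refine fink_ind (fun x : M => FinK (sU x)) ha ?_ ?_
  · have : sU (emp M) = emp M := eq_emp fun x hx => by
      obtain ⟨y, hy, -⟩ := mem_sU.1 hx
      exact not_mem_emp hy
    rw [this]
    exact fink_emp
  · intro x y _ hy ih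
    have : sU (ins y x) = un y (sU x) := ext fun z => by
      rw [mem_un, mem_sU, mem_sU]
      constructor
      · rintro ⟨t, ht, hz⟩
        rcases mem_ins.1 ht with ht | rfl
        · exact Or.inr ⟨t, ht, hz⟩
        · exact Or.inl hz
      · rintro (hz | ⟨t, ht, hz⟩)
        · exact ⟨y, mem_ins.2 (Or.inr rfl), hz⟩
        · exact ⟨t, mem_ins.2 (Or.inl ht), hz⟩
    rw [this]
    exact fink_un (h y hy) ih

/-- finite unions given by a definable family -/
theorem fink_family (R : M → M → Prop) [DP2 R] {a V : M} (ha : FinK a)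
    (h : ∀ x, x ∈ a → FinK (sep V (fun y => R x y))) :
    FinK (sep V (fun y => ∃ x, x ∈ a ∧ R x y)) := by
  have hR := fun {Γ : Type u} [Ctx M Γ] (F G : Γ → M) [DF F] [DF G] => DP2.app R (F := F) (G := G)
  refine fink_ind (fun a' : M => FinK (sep V (fun y => ∃ x, x ∈ a' ∧ R x y))) ha ?_ ?_
  · have : sep V (fun y => ∃ x, x ∈ emp M ∧ R x y) = emp M := eq_emp fun y hy => by
      obtain ⟨-, x, hx, -⟩ := mem_sep.1 hy
      exact not_mem_emp hx
    rw [this]
    exact fink_emp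
  · intro a' x _ hx ih
    have : sep V (fun y => ∃ z, z ∈ ins x a' ∧ R z y) =
        un (sep V (fun y => R x y)) (sep V (fun y => ∃ x, x ∈ a' ∧ R x y)) := ext fun y => by
      rw [mem_un, mem_sep, mem_sep, mem_sep]
      constructor
      · rintro ⟨hy, z, hz, hzy⟩
        rcases mem_ins.1 hz with hz | rfl
        · exact Or.inr ⟨hy, z, hz, hzy⟩
        · exact Or.inl ⟨hy, hzy⟩
      · rintro (⟨hy, h⟩ | ⟨hy, z, hz, h⟩)
        · exact ⟨hy, x, mem_ins.2 (Or.inr rfl), h⟩
        · exact ⟨hy, z, mem_ins.2 (Or.inl hz), h⟩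
    rw [this]
    exact fink_un (h x hx) ih

/-- finite conjunctions of eventual properties -/
theorem ev_all_fin (R : M → M → Prop) [DP2 R] {a : M} (ha : FinK a)
    (h : ∀ x, x ∈ a → Ev (fun m => R x m)) : Ev (fun m => ∀ x, x ∈ a → R x m) := by
  have hR := fun {Γ : Type u} [Ctx M Γ] (F G : Γ → M) [DF F] [DF G] => DP2.app R (F := F) (G := G)
  refine fink_ind (fun a' : M => Ev (fun m => ∀ x, x ∈ a' → R x m)) ha ?_ ?_
  · exact Ev.of_forall fun m _ x hx => absurd hx not_mem_emp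
  · intro a' y _ hy ih
    refine (ih.and (h y hy)).mono fun m _ hm x hx => ?_
    rcases mem_ins.1 hx with hx | rfl
    · exact hm.1 x hx
    · exact hm.2

/-! ### recursion on omega -/

/-- function application -/
noncomputable def ap (f x : M) : M := the (fun y => op x y ∈ f)

omit [ZFM M] in
instance df_ap {F G : Γ → M} [hF : DF F] [hG : DF G] : DF (fun γ => ap (F γ) (G γ)) := by
  unfold ap
  infer_instance

omit [ZFM M] in
theorem ap_spec {f x : M} (h : ∃ y, op x y ∈ f ∧ ∀ y', op x y' ∈ f → y' = y) :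
    op x (ap f x) ∈ f := the_spec (P := fun y => op x y ∈ f) h

omit [ZFM M] in
theorem ap_eq {f x y : M} (h : op x y ∈ f) (h' : ∀ y', op x y' ∈ f → y' = y) : ap f x = y :=
  the_eq h h'

/-- closure condition for the graph of a recursively defined function -/
def RecCl (V a : M) (G : M → M → M) (u : M) : Prop :=
  op (emp M) a ∈ u ∧ ∀ k, k ∈ om M → ∀ x, x ∈ V → op k x ∈ u → op (suc k) (G k x) ∈ u

omit [ZFM M] in
instance dp_RecCl {V a U : Γ → M} {G : Γ → M → M → M} [hV : DF V] [ha : DF a] [hU : DF U]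
    [hG : DF (fun w : (Γ × M) × M => G w.1.1 w.1.2 w.2)] :
    DP M (fun γ => RecCl (V γ) (a γ) (G γ) (U γ)) := by
  unfold RecCl
  infer_instance

/-- graph of the function defined by recursion -/
noncomputable def recG (V a : M) (G : M → M → M) : M :=
  sep (prd (om M) V) (fun p => ∀ u, RecCl V a G u → p ∈ u)

omit [ZFM M] in
instance df_recG {V a : Γ → M} {G : Γ → M → M → M} [hV : DF V] [ha : DF a]
    [hG : DF (fun w : (Γ × M) × M => G w.1.1 w.1.2 w.2)] :
    DF (fun γ => recG (V γ) (a γ) (G γ)) := by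
  have h1 : DF (fun w : (((Γ × M) × M) × M) × M => G w.1.1.1.1 w.1.2 w.2) :=
    DF.reidx (F := fun w : (Γ × M) × M => G w.1.1 w.1.2 w.2) hG
      (fun w : (((Γ × M) × M) × M) × M => ((w.1.1.1.1, w.1.2), w.2))
      (fun n => Nat.casesOn n 0 (fun k => Nat.casesOn k 1 (fun j => j + 4))) (by
        intro δ p
        funext n
        rcases n with _ | _ | n <;> rfl)
  unfold recG
  infer_instance

/-- the function defined by recursion -/
noncomputable def sq (V a : M) (G : M → M → M) (n : M) : M := ap (recG V a G) n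

omit [ZFM M] in
instance df_sq {V a N : Γ → M} {G : Γ → M → M → M} [hV : DF V] [ha : DF a] [hN : DF N]
    [hG : DF (fun w : (Γ × M) × M => G w.1.1 w.1.2 w.2)] :
    DF (fun γ => sq (V γ) (a γ) (G γ) (N γ)) := by
  unfold sq
  infer_instance

section recursion

variable {V a : M} (G : M → M → M) [hGd : DF2 G] (ha : a ∈ V)
  (hG : ∀ n, n ∈ om M → ∀ x, x ∈ V → G n x ∈ V)

include ha hG

omit ha hG in
theorem mem_recG {p : M} :
    p ∈ recG V a G ↔ p ∈ prd (om M) V ∧ ∀ u, RecCl V a G u → p ∈ u := by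
  have hR := fun {Γ : Type u} [Ctx M Γ] (A B : Γ → M) [DF A] [DF B] => DF2.app G (F := A) (G := B)
  unfold recG
  rw [mem_sep]

theorem recCl_recG : RecCl V a G (recG V a G) := by
  constructor
  · rw [mem_recG]
    exact ⟨op_mem_prd.2 ⟨zero_mem_om, ha⟩, fun u hu => hu.1⟩
  · intro k hk x hx h
    rw [mem_recG] at h ⊢
    exact ⟨op_mem_prd.2 ⟨suc_mem_om hk, hG k hk x hx⟩, fun u hu => hu.2 k hk x hx (h.2 u hu)⟩

theorem recG_unique {n : M} (hn : n ∈ om M) :
    ∃ y, op n y ∈ recG V a G ∧ ∀ y', op n y' ∈ recG V a G → y' = y := by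
  have hR := fun {Γ : Type u} [Ctx M Γ] (A B : Γ → M) [DF A] [DF B] => DF2.app G (F := A) (G := B)
  have hcl := recCl_recG G ha hG
  refine om_ind (fun n : M => ∃ y, op n y ∈ recG V a G ∧ ∀ y', op n y' ∈ recG V a G → y' = y)
    ?_ ?_ hn
  · refine ⟨a, hcl.1, fun y hy => ?_⟩
    by_contra hne
    have := (mem_recG G).1 hy
    have h2 := this.2 (sep (recG V a G) (fun p => p ≠ op (emp M) y)) ⟨?_, ?_⟩
    · exact (mem_sep.1 h2).2 rfl
    · exact mem_sep.2 ⟨hcl.1, fun h => hne (op_inj.1 h).2.symm⟩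
    · intro k hk x hx h
      rw [mem_sep] at h ⊢
      exact ⟨hcl.2 k hk x hx h.1, fun h => suc_ne_zero k (op_inj.1 h).1⟩
  · rintro n hn ⟨x, hx, hx'⟩
    have hxV : x ∈ V := (op_mem_prd.1 ((mem_recG G).1 hx).1).2
    refine ⟨G n x, hcl.2 n hn x hxV hx, fun y hy => ?_⟩
    by_contra hne
    have := (mem_recG G).1 hy
    have h2 := this.2 (sep (recG V a G) (fun p => p ≠ op (suc n) y)) ⟨?_, ?_⟩
    · exact (mem_sep.1 h2).2 rfl
    · exact mem_sep.2 ⟨hcl.1, fun h => suc_ne_zero n (op_inj.1 h).1.symm⟩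
    · intro k hk z hz h
      rw [mem_sep] at h ⊢
      refine ⟨hcl.2 k hk z hz h.1, fun h' => hne ?_⟩
      obtain ⟨h1, h2⟩ := op_inj.1 h'
      have hkn := suc_inj hk hn h1
      subst hkn
      rw [hx' z h.1] at h2
      exact h2.symm

theorem op_sq_mem {n : M} (hn : n ∈ om M) : op n (sq V a G n) ∈ recG V a G :=
  ap_spec (recG_unique G ha hG hn)

theorem sq_mem {n : M} (hn : n ∈ om M) : sq V a G n ∈ V :=
  (op_mem_prd.1 ((mem_recG G).1 (op_sq_mem G ha hG hn)).1).2

theorem sq_zero : sq V a G (emp M) = a := by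
  obtain ⟨y, hy, hy'⟩ := recG_unique G ha hG zero_mem_om
  rw [hy' _ (op_sq_mem G ha hG zero_mem_om), ← hy' a (recCl_recG G ha hG).1]

theorem sq_suc {n : M} (hn : n ∈ om M) : sq V a G (suc n) = G n (sq V a G n) := by
  obtain ⟨y, hy, hy'⟩ := recG_unique G ha hG (suc_mem_om hn)
  rw [hy' _ (op_sq_mem G ha hG (suc_mem_om hn)),
    ← hy' _ ((recCl_recG G ha hG).2 n hn _ (sq_mem G ha hG hn) (op_sq_mem G ha hG hn))]

end recursion

end Pool.Agent.Work.MP_bce22b_lc
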