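import Pool.Agent.Work.MP_bce22b_lc.Nhd

/-!
Total preorders refining the rank preorder of a cuf set.
-/

namespace Pool.Agent.Work.MP_bce22b_lc

universe u

variable {M : Type u} [SetStr M] {Γ : Type u} [Ctx M Γ]

/-- the rank preorder -/
noncomputable def Q0 (D : M) (δ : M → M) : M :=
  sep (prd D D) (fun p => ∀ x y, p = op x y → ∀ n, n ∈ om M → y ∈ δ n → x ∈ δ n)

/-- total preorders on `D` -/
def TP (D r : M) : Prop :=
  (∀ x, x ∈ D → ∀ y, y ∈ D → op x y ∈ r ∨ op y x ∈ r) ∧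
    ∀ x y z, op x y ∈ r → op y z ∈ r → op x z ∈ r

instance dp_TP {A B : Γ → M} [DF A] [DF B] : DP M (fun γ => TP (A γ) (B γ)) := by
  unfold TP
  infer_instance

/-- refinement of a preorder by a set: elements outside `A` come first -/
noncomputable def ref (r A : M) : M :=
  sep r (fun p => ∀ x y, p = op x y → ¬ (op y x ∈ r ∧ x ∈ A ∧ y ∉ A))

instance df_ref {A B : Γ → M} [DF A] [DF B] : DF (fun γ => ref (A γ) (B γ)) := by
  unfold ref
  infer_instance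

variable [ZFM M]

theorem mem_ref {r A x y : M} :
    op x y ∈ ref r A ↔ op x y ∈ r ∧ ¬ (op y x ∈ r ∧ x ∈ A ∧ y ∉ A) := by
  unfold ref
  rw [mem_sep]
  constructor
  · exact fun h => ⟨h.1, h.2 x y rfl⟩
  · rintro ⟨h1, h2⟩
    refine ⟨h1, fun x' y' h => ?_⟩
    obtain ⟨rfl, rfl⟩ := op_inj.1 h
    exact h2

theorem ref_sub {r A : M} : ref r A ⊆ r := fun x hx => by
  unfold ref at hx
  exact (mem_sep.1 hx).1

theorem TP_ref {D r A : M} (h : TP D r) : TP D (ref r A) := by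
  constructor
  · intro x hx y hy
    rw [mem_ref, mem_ref]
    rcases h.1 x hx y hy with h1 | h1 <;> by_cases h2 : op x y ∈ r <;>
      by_cases h3 : op y x ∈ r <;> by_cases h4 : x ∈ A <;> by_cases h5 : y ∈ A <;> tauto
  · intro x y z
    rw [mem_ref, mem_ref, mem_ref]
    rintro ⟨hxy, h1⟩ ⟨hyz, h2⟩
    refine ⟨h.2 x y z hxy hyz, ?_⟩
    rintro ⟨hzx, hxA, hzA⟩
    have hyx : op y x ∈ r := h.2 y z x hyz hzx
    have hzy : op z y ∈ r := h.2 z x y hzx hxy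
    by_cases hy : y ∈ A
    · exact h2 ⟨hzy, hy, hzA⟩
    · exact h1 ⟨hyx, hxA, hy⟩

section

variable {D : M} (δ : M → M) [hd : DF1 δ] (hD : ∀ x, x ∈ D ↔ ∃ n, n ∈ om M ∧ x ∈ δ n)
  (hmono : ∀ m n, m ∈ om M → n ∈ om M → m ⊆ n → δ m ⊆ δ n) (hfin : ∀ n, n ∈ om M → FinK (δ n))

theorem mem_Q0 {x y : M} :
    op x y ∈ Q0 D δ ↔ (x ∈ D ∧ y ∈ D) ∧ ∀ n, n ∈ om M → y ∈ δ n → x ∈ δ n := by
  have hR := fun {Γ : Type u} [Ctx M Γ] (F : Γ → M) [DF F] => DF1.app δ (F := F)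
  unfold Q0
  rw [mem_sep, op_mem_prd]
  constructor
  · exact fun h => ⟨h.1, h.2 x y rfl⟩
  · rintro ⟨h1, h2⟩
    refine ⟨h1, fun x' y' h => ?_⟩
    obtain ⟨rfl, rfl⟩ := op_inj.1 h
    exact h2

include hmono in
theorem TP_Q0 : TP D (Q0 D δ) := by
  constructor
  · intro x hx y hy
    rw [mem_Q0, mem_Q0]
    by_cases h : ∀ n, n ∈ om M → y ∈ δ n → x ∈ δ n
    · exact Or.inl ⟨⟨hx, hy⟩, h⟩
    · push Not at h
      obtain ⟨n, hn, hyn, hxn⟩ := h
      refine Or.inr ⟨⟨hy, hx⟩, fun m hm hxm => ?_⟩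
      rcases om_le_total hm hn with h | h
      · exact absurd (hmono m n hm hn h x hxm) hxn
      · exact hmono n m hn hm h y hyn
  · intro x y z
    rw [mem_Q0, mem_Q0, mem_Q0]
    rintro ⟨h1, h2⟩ ⟨h3, h4⟩
    exact ⟨⟨h1.1, h3.2⟩, fun n hn h => h2 n hn (h4 n hn h)⟩

theorem TP_sI {S : M} (hne : ∃ a, a ∈ S) (h : ∀ a, a ∈ S → TP D a)
    (hch : ∀ a b, a ∈ S → b ∈ S → a ⊆ b ∨ b ⊆ a) : TP D (sI S) := by
  constructor
  · intro x hx y hy
    by_contra hcon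
    push Not at hcon
    rw [mem_sI hne, mem_sI hne] at hcon
    push Not at hcon
    obtain ⟨⟨a, ha, hxa⟩, ⟨b, hb, hyb⟩⟩ := hcon
    rcases hch a b ha hb with hab | hab
    · rcases (h a ha).1 x hx y hy with h1 | h1
      · exact hxa h1
      · exact hyb (hab _ h1)
    · rcases (h b hb).1 x hx y hy with h1 | h1
      · exact hxa (hab _ h1)
      · exact hyb h1
  · intro x y z hxy hyz
    rw [mem_sI hne] at hxy hyz ⊢
    exact fun a ha => (h a ha).2 x y z (hxy a ha) (hyz a ha)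

theorem tp_min_fin {r A : M} (hr : TP D r) (hA : A ⊆ D) (hfA : FinK A) (hne : ∃ x, x ∈ A) :
    ∃ x, x ∈ A ∧ ∀ y, y ∈ A → op x y ∈ r := by
  have : (∃ x, x ∈ A) → ∃ x, x ∈ A ∧ ∀ y, y ∈ A → op x y ∈ r := by
    refine fink_ind (fun B : M => (∃ x, x ∈ B) → ∃ x, x ∈ B ∧ ∀ y, y ∈ B → op x y ∈ r) hfA ?_ ?_
    · rintro ⟨x, hx⟩
      exact absurd hx not_mem_emp
    · intro B b hB hb ih _
      have hrefl : ∀ x, x ∈ D → op x x ∈ r := fun x hx => (hr.1 x hx x hx).elim id id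
      by_cases h : ∃ x, x ∈ B
      · obtain ⟨x, hx, hmin⟩ := ih h
        rcases hr.1 x (hA x (hB x hx)) b (hA b hb) with h1 | h1
        · refine ⟨x, mem_ins.2 (Or.inl hx), fun y hy => ?_⟩
          rcases mem_ins.1 hy with hy | rfl
          · exact hmin y hy
          · exact h1
        · refine ⟨b, mem_ins.2 (Or.inr rfl), fun y hy => ?_⟩
          rcases mem_ins.1 hy with hy | rfl
          · exact hr.2 b x y h1 (hmin y hy)
          · exact hrefl y (hA y hb)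
      · refine ⟨b, mem_ins.2 (Or.inr rfl), fun y hy => ?_⟩
        rcases mem_ins.1 hy with hy | rfl
        · exact absurd ⟨y, hy⟩ h
        · exact hrefl y (hA y hb)
  exact this hne

include hD hfin in
theorem tp_min {r A : M} (hrQ : r ⊆ Q0 D δ) (hr : TP D r) (hA : A ⊆ D) (hne : ∃ x, x ∈ A) :
    ∃ x, x ∈ A ∧ ∀ y, y ∈ A → op x y ∈ r := by
  obtain ⟨a, ha⟩ := hne
  obtain ⟨n, hn, han⟩ := (hD a).1 (hA a ha)
  obtain ⟨x, hx, hmin⟩ := tp_min_fin (A := inter A (δ n)) hr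
    (fun z hz => hA z (mem_inter.1 hz).1)
    (fink_sub (hfin n hn) fun z hz => (mem_inter.1 hz).2) ⟨a, mem_inter.2 ⟨ha, han⟩⟩
  rw [mem_inter] at hx
  refine ⟨x, hx.1, fun y hy => ?_⟩
  by_cases hyn : y ∈ δ n
  · exact hmin y (mem_inter.2 ⟨hy, hyn⟩)
  · rcases hr.1 x (hA x hx.1) y (hA y hy) with h | h
    · exact h
    · exact absurd (((mem_Q0 δ).1 (hrQ _ h)).2 n hn hx.2) hyn

include hD hfin in
/-- a set of pairwise equivalent elements is finite -/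
theorem fink_class {r A : M} (hrQ : r ⊆ Q0 D δ) (hA : A ⊆ D)
    (h : ∀ x, x ∈ A → ∀ y, y ∈ A → op x y ∈ r) : FinK A := by
  by_cases hne : ∃ x, x ∈ A
  · obtain ⟨a, ha⟩ := hne
    obtain ⟨n, hn, han⟩ := (hD a).1 (hA a ha)
    exact fink_sub (hfin n hn) fun x hx => ((mem_Q0 δ).1 (hrQ _ (h x hx a ha))).2 n hn han
  · have : A = emp M := eq_emp fun x hx => hne ⟨x, hx⟩
    rw [this]
    exact fink_emp

end

end Pool.Agent.Work.MP_bce22b_lc
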