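import Pool.Agent.Work.MP_bce22b_lc.Basic

/-!
Elementary set theory inside a model of (a fragment of) ZF, without choice.
-/

namespace Pool.Agent.Work.MP_bce22b_lc

universe u

/-- The axioms of ZF that we use. -/
class ZFM (M : Type u) [SetStr M] : Prop where
  ext : ∀ a b : M, (∀ x, x ∈ a ↔ x ∈ b) → a = b
  pair : ∀ a b : M, ∃ c : M, ∀ x : M, x ∈ c ↔ x = a ∨ x = b
  union : ∀ a : M, ∃ c : M, ∀ x : M, x ∈ c ↔ ∃ y, y ∈ a ∧ x ∈ y
  power : ∀ a : M, ∃ c : M, ∀ x : M, x ∈ c ↔ ∀ y, y ∈ x → y ∈ a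
  infinity : ∃ w : M, (∃ z : M, z ∈ w ∧ ∀ x, x ∉ z) ∧
    ∀ n : M, n ∈ w → ∃ s : M, s ∈ w ∧ ∀ x, x ∈ s ↔ x ∈ n ∨ x = n
  sep : ∀ (P : M → Prop) [DP1 P] (a : M), ∃ c : M, ∀ x : M, x ∈ c ↔ x ∈ a ∧ P x

variable {M : Type u} [SetStr M] {Γ : Type u} [Ctx M Γ]

instance instSub (M : Type u) [SetStr M] : HasSubset M := ⟨fun a b => ∀ x : M, x ∈ a → x ∈ b⟩

theorem sub_def {a b : M} : a ⊆ b ↔ ∀ x : M, x ∈ a → x ∈ b := Iff.rfl

instance dp_sub {F G : Γ → M} [hF : DF F] [hG : DF G] : DP M (fun γ => F γ ⊆ G γ) := by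
  simp only [sub_def]
  infer_instance

/-- separation -/
noncomputable def sep (a : M) (P : M → Prop) : M := the (fun c : M => ∀ x, x ∈ c ↔ x ∈ a ∧ P x)

instance df_sep {F : Γ → M} {P : Γ → M → Prop} [hF : DF F]
    [h : DP M (fun w : Γ × M => P w.1 w.2)] : DF (fun γ => sep (F γ) (P γ)) := by
  have h1 : DP M (fun w : (Γ × M) × M => P w.1.1 w.2) := DP.weaken1 h
  unfold sep
  infer_instance

/-- unordered pair -/
noncomputable def upair (a b : M) : M := the (fun c : M => ∀ x, x ∈ c ↔ x = a ∨ x = b)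

instance df_upair {F G : Γ → M} [hF : DF F] [hG : DF G] : DF (fun γ => upair (F γ) (G γ)) := by
  unfold upair
  infer_instance

/-- union of a set -/
noncomputable def sU (a : M) : M := the (fun c : M => ∀ x, x ∈ c ↔ ∃ y, y ∈ a ∧ x ∈ y)

instance df_sU {F : Γ → M} [hF : DF F] : DF (fun γ => sU (F γ)) := by
  unfold sU
  infer_instance

/-- power set -/
noncomputable def pw (a : M) : M := the (fun c : M => ∀ x, x ∈ c ↔ x ⊆ a)

instance df_pw {F : Γ → M} [hF : DF F] : DF (fun γ => pw (F γ)) := by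
  unfold pw
  infer_instance

/-- binary union -/
noncomputable def un (a b : M) : M := the (fun c : M => ∀ x, x ∈ c ↔ x ∈ a ∨ x ∈ b)

instance df_un {F G : Γ → M} [hF : DF F] [hG : DF G] : DF (fun γ => un (F γ) (G γ)) := by
  unfold un
  infer_instance

/-- `a ∪ {x}` -/
noncomputable def ins (x a : M) : M := the (fun c : M => ∀ y, y ∈ c ↔ y ∈ a ∨ y = x)

instance df_ins {F G : Γ → M} [hF : DF F] [hG : DF G] : DF (fun γ => ins (F γ) (G γ)) := by
  unfold ins
  infer_instance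

/-- the empty set -/
noncomputable def emp (M : Type u) [SetStr M] : M := the (fun c : M => ∀ y : M, y ∉ c)

/-- ordered pair -/
noncomputable def op (x y : M) : M := upair (upair x x) (upair x y)

instance df_op {F G : Γ → M} [hF : DF F] [hG : DF G] : DF (fun γ => op (F γ) (G γ)) := by
  unfold op
  infer_instance

variable [ZFM M]

theorem ext {a b : M} (h : ∀ x, x ∈ a ↔ x ∈ b) : a = b := ZFM.ext a b h

theorem sub_antisymm {a b : M} (h : a ⊆ b) (h' : b ⊆ a) : a = b :=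
  ext fun x => ⟨h x, h' x⟩

theorem sub_refl (a : M) : a ⊆ a := fun _ h => h

theorem sub_trans {a b c : M} (h : a ⊆ b) (h' : b ⊆ c) : a ⊆ c := fun x hx => h' x (h x hx)

/-- comprehension terms are well defined as soon as they exist -/
theorem mem_the {P : M → Prop} (h : ∃ c : M, ∀ x, x ∈ c ↔ P x) (x : M) :
    x ∈ the (fun c : M => ∀ x, x ∈ c ↔ P x) ↔ P x := by
  obtain ⟨c, hc⟩ := h
  exact the_spec (P := fun c : M => ∀ x, x ∈ c ↔ P x)
    ⟨c, hc, fun y hy => ext fun x => (hy x).trans (hc x).symm⟩ x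

theorem mem_sep {P : M → Prop} [hP : DP1 P] {a x : M} : x ∈ sep a P ↔ x ∈ a ∧ P x :=
  mem_the (ZFM.sep P a) x

theorem mem_upair {a b x : M} : x ∈ upair a b ↔ x = a ∨ x = b := mem_the (ZFM.pair a b) x

theorem mem_sU {a x : M} : x ∈ sU a ↔ ∃ y, y ∈ a ∧ x ∈ y := mem_the (ZFM.union a) x

theorem mem_pw {a x : M} : x ∈ pw a ↔ x ⊆ a := mem_the (ZFM.power a) x

theorem mem_un {a b x : M} : x ∈ un a b ↔ x ∈ a ∨ x ∈ b := by
  refine mem_the ⟨sU (upair a b), fun x => ?_⟩ x
  rw [mem_sU]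
  constructor
  · rintro ⟨y, hy, hx⟩
    rcases mem_upair.1 hy with rfl | rfl
    · exact Or.inl hx
    · exact Or.inr hx
  · rintro (h | h)
    · exact ⟨a, mem_upair.2 (Or.inl rfl), h⟩
    · exact ⟨b, mem_upair.2 (Or.inr rfl), h⟩

theorem mem_ins {a x y : M} : y ∈ ins x a ↔ y ∈ a ∨ y = x := by
  refine mem_the ⟨un a (upair x x), fun y => ?_⟩ y
  rw [mem_un, mem_upair]
  tauto

theorem exists_emp (M : Type u) [SetStr M] [ZFM M] : ∃ c : M, ∀ y : M, y ∉ c := by
  obtain ⟨w, ⟨z, -, hz⟩, -⟩ := ZFM.infinity (M := M)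
  exact ⟨z, hz⟩

theorem not_mem_emp {y : M} : y ∉ emp M := by
  obtain ⟨c, hc⟩ := exists_emp M
  exact the_spec (P := fun c : M => ∀ y : M, y ∉ c)
    ⟨c, hc, fun y hy => ext fun x => ⟨fun h => absurd h (hy x), fun h => absurd h (hc x)⟩⟩ y

theorem eq_emp {a : M} (h : ∀ x, x ∉ a) : a = emp M :=
  ext fun x => ⟨fun hx => absurd hx (h x), fun hx => absurd hx not_mem_emp⟩

theorem ne_emp {a : M} : a ≠ emp M ↔ ∃ x, x ∈ a := by
  constructor
  · intro h
    by_contra hc
    exact h (eq_emp fun x hx => hc ⟨x, hx⟩)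
  · rintro ⟨x, hx⟩ rfl
    exact not_mem_emp hx

theorem upair_self_inj {a b : M} (h : upair a a = upair b b) : a = b := by
  have : a ∈ upair b b := h ▸ mem_upair.2 (Or.inl rfl)
  rcases mem_upair.1 this with h | h <;> exact h

theorem op_inj {x y x' y' : M} : op x y = op x' y' ↔ x = x' ∧ y = y' := by
  constructor
  · intro h
    have hx : x = x' := by
      have h1 : upair x x ∈ op x' y' := h ▸ mem_upair.2 (Or.inl rfl)
      rcases mem_upair.1 h1 with h1 | h1
      · exact upair_self_inj h1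
      · have : x' ∈ upair x x := h1 ▸ mem_upair.2 (Or.inl rfl)
        rcases mem_upair.1 this with h | h <;> exact h.symm
    subst hx
    refine ⟨rfl, ?_⟩
    have h1 : upair x y ∈ op x y' := h ▸ mem_upair.2 (Or.inr rfl)
    have h2 : upair x y' ∈ op x y := h ▸ mem_upair.2 (Or.inr rfl)
    have key : ∀ {a b : M}, upair x a ∈ op x b → a = b ∨ a = x := by
      intro a b hab
      have ha : a ∈ upair x a := mem_upair.2 (Or.inr rfl)
      rcases mem_upair.1 hab with e | e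
      · rw [e] at ha
        rcases mem_upair.1 ha with h | h <;> exact Or.inr h
      · rw [e] at ha
        rcases mem_upair.1 ha with h | h
        · exact Or.inr h
        · exact Or.inl h
    rcases key h1 with e | e
    · exact e
    · rcases key h2 with e' | e'
      · exact e'.symm
      · exact e.trans e'.symm
  · rintro ⟨rfl, rfl⟩
    rfl

/-- cartesian product -/
noncomputable def prd (a b : M) : M :=
  sep (pw (pw (un a b))) (fun p => ∃ x y, x ∈ a ∧ y ∈ b ∧ p = op x y)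

omit [ZFM M] in
instance df_prd {F G : Γ → M} [hF : DF F] [hG : DF G] : DF (fun γ => prd (F γ) (G γ)) := by
  unfold prd
  infer_instance

theorem mem_prd {a b p : M} : p ∈ prd a b ↔ ∃ x y, x ∈ a ∧ y ∈ b ∧ p = op x y := by
  unfold prd
  rw [mem_sep]
  constructor
  · exact fun h => h.2
  · rintro ⟨x, y, hx, hy, rfl⟩
    refine ⟨?_, x, y, hx, hy, rfl⟩
    rw [mem_pw]
    intro z hz
    rw [mem_pw]
    intro t ht
    rw [mem_un]
    rcases mem_upair.1 hz with rfl | rfl
    · rcases mem_upair.1 ht with rfl | rfl <;> exact Or.inl hx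
    · rcases mem_upair.1 ht with rfl | rfl
      · exact Or.inl hx
      · exact Or.inr hy

theorem op_mem_prd {a b x y : M} : op x y ∈ prd a b ↔ x ∈ a ∧ y ∈ b := by
  rw [mem_prd]
  constructor
  · rintro ⟨x', y', hx, hy, h⟩
    obtain ⟨rfl, rfl⟩ := op_inj.1 h
    exact ⟨hx, hy⟩
  · rintro ⟨hx, hy⟩
    exact ⟨x, y, hx, hy, rfl⟩

/-- first coordinate -/
noncomputable def fst (p : M) : M := the (fun x => ∃ y, p = op x y)
/-- second coordinate -/
noncomputable def snd (p : M) : M := the (fun y => ∃ x, p = op x y)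

omit [ZFM M] in
instance df_fst {F : Γ → M} [hF : DF F] : DF (fun γ => fst (F γ)) := by
  unfold fst
  infer_instance

omit [ZFM M] in
instance df_snd {F : Γ → M} [hF : DF F] : DF (fun γ => snd (F γ)) := by
  unfold snd
  infer_instance

theorem fst_op {x y : M} : fst (op x y) = x :=
  the_eq ⟨y, rfl⟩ (by rintro x' ⟨y', h⟩; exact (op_inj.1 h).1.symm)

theorem snd_op {x y : M} : snd (op x y) = y :=
  the_eq ⟨x, rfl⟩ (by rintro x' ⟨y', h⟩; exact (op_inj.1 h).2.symm)

/-- intersection of a set -/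
noncomputable def sI (a : M) : M := sep (sU a) (fun x => ∀ y, y ∈ a → x ∈ y)

omit [ZFM M] in
instance df_sI {F : Γ → M} [hF : DF F] : DF (fun γ => sI (F γ)) := by
  unfold sI
  infer_instance

theorem mem_sI {a x : M} (ha : ∃ y, y ∈ a) : x ∈ sI a ↔ ∀ y, y ∈ a → x ∈ y := by
  unfold sI
  rw [mem_sep]
  constructor
  · exact fun h => h.2
  · intro h
    obtain ⟨y, hy⟩ := ha
    exact ⟨mem_sU.2 ⟨y, hy, h y hy⟩, h⟩

end Pool.Agent.Work.MP_bce22b_lc
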