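import Pool.Agent.Work.MP_bce22b_lc.BW

/-!
Topology inside a model, without choice: closures, regularity, neighbourhoods from a cuf base.
-/

namespace Pool.Agent.Work.MP_bce22b_lc

universe u

variable {M : Type u} [SetStr M] {Γ : Type u} [Ctx M Γ]

/-- intersection of two sets -/
noncomputable def inter (a b : M) : M := sep a (fun x => x ∈ b)

instance df_inter {F G : Γ → M} [hF : DF F] [hG : DF G] : DF (fun γ => inter (F γ) (G γ)) := by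
  unfold inter
  infer_instance

/-- difference of two sets -/
noncomputable def diff (a b : M) : M := sep a (fun x => x ∉ b)

instance df_diff {F G : Γ → M} [hF : DF F] [hG : DF G] : DF (fun γ => diff (F γ) (G γ)) := by
  unfold diff
  infer_instance

/-- closure -/
noncomputable def cl (X T A : M) : M := sep X (fun x => ∀ U, U ∈ T → x ∈ U → ∃ y, y ∈ U ∧ y ∈ A)

instance df_cl {F G H : Γ → M} [hF : DF F] [hG : DF G] [hH : DF H] :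
    DF (fun γ => cl (F γ) (G γ) (H γ)) := by
  unfold cl
  infer_instance

variable [ZFM M]

theorem mem_inter {a b x : M} : x ∈ inter a b ↔ x ∈ a ∧ x ∈ b := mem_sep
theorem mem_diff {a b x : M} : x ∈ diff a b ↔ x ∈ a ∧ x ∉ b := mem_sep
theorem mem_cl {X T A x : M} :
    x ∈ cl X T A ↔ x ∈ X ∧ ∀ U, U ∈ T → x ∈ U → ∃ y, y ∈ U ∧ y ∈ A := mem_sep

/-- topological spaces -/
structure TopSp (X T : M) : Prop where
  univ : X ∈ T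
  sub : ∀ U, U ∈ T → U ⊆ X
  sU : ∀ S, S ⊆ T → sU S ∈ T
  inter : ∀ U V, U ∈ T → V ∈ T → inter U V ∈ T

/-- closed sets -/
def Cld (X T C : M) : Prop := C ⊆ X ∧ diff X C ∈ T

section

variable {X T : M} (hT : TopSp X T)

include hT

theorem top_of_nhds {A : M} (hA : A ⊆ X) (h : ∀ x, x ∈ A → ∃ U, U ∈ T ∧ x ∈ U ∧ U ⊆ A) :
    A ∈ T := by
  have : A = sU (sep T (fun U => U ⊆ A)) := ext fun x => by
    rw [mem_sU]
    constructor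
    · intro hx
      obtain ⟨U, hU, hxU, hUA⟩ := h x hx
      exact ⟨U, mem_sep.2 ⟨hU, hUA⟩, hxU⟩
    · rintro ⟨U, hU, hx⟩
      exact (mem_sep.1 hU).2 x hx
  rw [this]
  exact hT.sU _ fun U hU => (mem_sep.1 hU).1

theorem cld_of_nhds {C : M} (hC : C ⊆ X)
    (h : ∀ x, x ∈ X → x ∉ C → ∃ U, U ∈ T ∧ x ∈ U ∧ ∀ z, z ∈ U → z ∉ C) : Cld X T C := by
  refine ⟨hC, top_of_nhds hT (fun x hx => (mem_diff.1 hx).1) fun x hx => ?_⟩
  obtain ⟨hx, hxC⟩ := mem_diff.1 hx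
  obtain ⟨U, hU, hxU, hUC⟩ := h x hx hxC
  exact ⟨U, hU, hxU, fun z hz => mem_diff.2 ⟨hT.sub U hU z hz, hUC z hz⟩⟩

omit hT in
theorem cl_sub {A : M} : cl X T A ⊆ X := fun x hx => (mem_cl.1 hx).1

omit hT in
theorem not_mem_cl {A x : M} (hx : x ∈ X) (h : x ∉ cl X T A) :
    ∃ U, U ∈ T ∧ x ∈ U ∧ ∀ z, z ∈ U → z ∉ A := by
  rw [mem_cl] at h
  push Not at h
  exact h hx

theorem cl_cld {A : M} : Cld X T (cl X T A) := by
  refine cld_of_nhds hT cl_sub fun x hx hxc => ?_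
  obtain ⟨U, hU, hxU, hUA⟩ := not_mem_cl hx hxc
  refine ⟨U, hU, hxU, fun z hz hzc => ?_⟩
  obtain ⟨y, hy, hyA⟩ := (mem_cl.1 hzc).2 U hU hz
  exact hUA y hy hyA

omit hT in
theorem sub_cl {A : M} (hA : A ⊆ X) : A ⊆ cl X T A := fun x hx =>
  mem_cl.2 ⟨hA x hx, fun _ _ hxU => ⟨x, hxU, hx⟩⟩

omit hT in
theorem cl_mono {A B : M} (h : A ⊆ B) : cl X T A ⊆ cl X T B := fun x hx => by
  rw [mem_cl] at hx ⊢
  refine ⟨hx.1, fun U hU hxU => ?_⟩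
  obtain ⟨y, hy, hyA⟩ := hx.2 U hU hxU
  exact ⟨y, hy, h y hyA⟩

omit hT in
theorem cl_sub_of_cld {A C : M} (hC : Cld X T C) (h : A ⊆ C) : cl X T A ⊆ C := fun x hx => by
  by_contra hxC
  rw [mem_cl] at hx
  obtain ⟨y, hy, hyA⟩ := hx.2 _ hC.2 (mem_diff.2 ⟨hx.1, hxC⟩)
  exact (mem_diff.1 hy).2 (h y hyA)

/-- finite conjunctions of neighbourhood properties -/
theorem nhd_all_fin (R : M → M → Prop) [DP2 R] {a x : M} (ha : FinK a) (hx : x ∈ X)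
    (hmono : ∀ W U V, R W U → V ⊆ U → R W V)
    (h : ∀ W, W ∈ a → ∃ U, U ∈ T ∧ x ∈ U ∧ R W U) :
    ∃ U, U ∈ T ∧ x ∈ U ∧ ∀ W, W ∈ a → R W U := by
  have hR := fun {Γ : Type u} [Ctx M Γ] (F G : Γ → M) [DF F] [DF G] => DP2.app R (F := F) (G := G)
  refine fink_ind (fun a' : M => ∃ U, U ∈ T ∧ x ∈ U ∧ ∀ W, W ∈ a' → R W U) ha ?_ ?_
  · exact ⟨X, hT.univ, hx, fun W hW => absurd hW not_mem_emp⟩
  · rintro a' W _ hW ⟨U, hU, hxU, hall⟩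
    obtain ⟨V, hV, hxV, hWV⟩ := h W hW
    refine ⟨inter U V, hT.inter U V hU hV, mem_inter.2 ⟨hxU, hxV⟩, fun W' hW' => ?_⟩
    rcases mem_ins.1 hW' with h' | rfl
    · exact hmono _ _ _ (hall W' h') fun z hz => (mem_inter.1 hz).1
    · exact hmono _ _ _ hWV fun z hz => (mem_inter.1 hz).2

/-- Hausdorff -/
def Haus (X T : M) : Prop := ∀ x y, x ∈ X → y ∈ X → x ≠ y →
  ∃ U V, U ∈ T ∧ V ∈ T ∧ x ∈ U ∧ y ∈ V ∧ ∀ z, z ∈ U → z ∉ V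

/-- compact (every open cover has a finite subcover) -/
def Cpt (X T : M) : Prop := ∀ C, C ⊆ T → (∀ x, x ∈ X → ∃ U, U ∈ C ∧ x ∈ U) →
  ∃ C', C' ⊆ C ∧ FinK C' ∧ ∀ x, x ∈ X → ∃ U, U ∈ C' ∧ x ∈ U

theorem regular (hH : Haus X T) (hC : Cpt X T) {x U : M} (hU : U ∈ T) (hx : x ∈ U) :
    ∃ V, V ∈ T ∧ x ∈ V ∧ cl X T V ⊆ U := by
  have hxX := hT.sub U hU x hx
  obtain ⟨C', hC'1, hC'2, hC'3⟩ := hC
    (sep T (fun W => W = U ∨ ∃ V, V ∈ T ∧ x ∈ V ∧ ∀ z, z ∈ V → z ∉ W))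
    (fun W hW => (mem_sep.1 hW).1) (by
      intro y hy
      by_cases hyU : y ∈ U
      · exact ⟨U, mem_sep.2 ⟨hU, Or.inl rfl⟩, hyU⟩
      · obtain ⟨V, W, hV, hW, hxV, hyW, hd⟩ := hH x y hxX hy (by rintro rfl; exact hyU hx)
        exact ⟨W, mem_sep.2 ⟨hW, Or.inr ⟨V, hV, hxV, hd⟩⟩, hyW⟩)
  obtain ⟨V, hV, hxV, hall⟩ := nhd_all_fin hT
    (fun W V => W = U ∨ ∀ z, z ∈ V → z ∉ W) hC'2 hxX
    (fun W U' V' h hsub => h.imp id fun h z hz => h z (hsub z hz)) (by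
      intro W hW
      rcases (mem_sep.1 (hC'1 W hW)).2 with rfl | ⟨V, hV, hxV, hd⟩
      · exact ⟨X, hT.univ, hxX, Or.inl rfl⟩
      · exact ⟨V, hV, hxV, Or.inr hd⟩)
  refine ⟨V, hV, hxV, fun y hy => ?_⟩
  rw [mem_cl] at hy
  obtain ⟨W, hW, hyW⟩ := hC'3 y hy.1
  rcases hall W hW with rfl | hd
  · exact hyW
  · obtain ⟨z, hz, hzV⟩ := hy.2 W (mem_sep.1 (hC'1 W hW)).1 hyW
    exact absurd hz (hd z hzV)

omit hT in
/-- compactness for decreasing sequences -/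
theorem cpt_decr (hC : Cpt X T) (A : M → M) [DF1 A] (hAX : ∀ i, i ∈ om M → A i ⊆ X)
    (hne : ∀ i, i ∈ om M → ∃ x, x ∈ A i)
    (hdec : ∀ i j, i ∈ om M → j ∈ om M → i ⊆ j → A j ⊆ A i) :
    ∃ x, x ∈ X ∧ ∀ i, i ∈ om M → x ∈ cl X T (A i) := by
  have hR := fun {Γ : Type u} [Ctx M Γ] (F : Γ → M) [DF F] => DF1.app A (F := F)
  by_contra hcon
  push Not at hcon
  obtain ⟨C', hC'1, hC'2, hC'3⟩ := hC
    (sep T (fun U => ∃ i, i ∈ om M ∧ ∀ z, z ∈ U → z ∉ A i))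
    (fun W hW => (mem_sep.1 hW).1) (by
      intro y hy
      obtain ⟨i, hi, hyi⟩ := hcon y hy
      obtain ⟨U, hU, hyU, hd⟩ := not_mem_cl hy hyi
      exact ⟨U, mem_sep.2 ⟨hU, i, hi, hd⟩, hyU⟩)
  have hev : Ev (fun i => ∀ U, U ∈ C' → ∀ z, z ∈ U → z ∉ A i) := by
    refine ev_all_fin (fun U i => ∀ z, z ∈ U → z ∉ A i) hC'2 fun U hU => ?_
    obtain ⟨i, hi, hd⟩ := (mem_sep.1 (hC'1 U hU)).2
    exact ⟨i, hi, fun j hj hij z hz hzj => hd z hz (hdec i j hi hj hij z hzj)⟩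
  obtain ⟨i, hi, h⟩ := hev.exists
  obtain ⟨x, hx⟩ := hne i hi
  obtain ⟨U, hU, hxU⟩ := hC'3 x (hAX i hi x hx)
  exact h U hU x hxU hx

end

end Pool.Agent.Work.MP_bce22b_lc
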